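import Pool.Agent.PB.LE.E1Sum

/-!
# PROJECT PB, LE-E1Iter: the expansion to all orders (4.1), identities in `[0,∞]`

PLAN. `EcalF p` is additive and commutes with countable sums and scalars (`ENNReal.tsum_add`,
`tsum_mul_left`, `tsum_comm`): `EcalF_add`, `EcalF_tsum_mul`; hence so do its iterates
(`EcalF_iter_add`, `EcalF_iter_tsum_mul`, induction on `N` generalizing the functions, with
`Function.iterate_succ_apply`). `E1` for `A = Del.ofSet K` says, as functions of `(K, y)`,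
`gxF p x + EcalF p (gxF p x) = XiF p x + Σ_u XiF p u · (J*τ)(x-u)`. Apply `(EcalF p)^[N]`:
`iter_id`. At `({0}, 0)`: `Rm p N x + Rm p (N+1) x = Pm p N x + Σ_u Pm p N u (J*τ)(x-u)`, and the last
sum is `conv (Pm p N) (conv (J p) (tau p)) x` by definition, reassociate with `conv_assoc`.
`Rm_zero`: `gx p x (ofSet {0}) 0 = Pr {Rch O 0 x ∧ x ∉ ∅}` (`ClA_eq_empty`; `Finset.coe_singleton`).
`Pm_eq_PiN`: `N = 0`: `dconn_iff`; `N+1`: `Function.iterate_succ_apply'`, `ker0 p u v K = ker p (ofSet {0}) 0 u v K`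
by `dconn_iff`. `Rm_succ_eq`: the remainder of helper1's interface, same argument.
-/

set_option autoImplicit false
open MeasureTheory Filter Topology
open scoped ENNReal BigOperators

namespace Pool.Agent.PB.LE

variable {d : ℕ}

theorem EcalF_add (p : ℝ) (F G : Finset (V d) → V d → ℝ≥0∞) :
    EcalF p (fun K v => F K v + G K v) = fun K v => EcalF p F K v + EcalF p G K v := by
  funext K v
  unfold EcalF Ecal
  rw [← ENNReal.tsum_add]
  refine tsum_congr fun u => ?_
  rw [← ENNReal.tsum_add]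
  refine tsum_congr fun w => ?_
  rw [← ENNReal.tsum_add]
  refine tsum_congr fun L => ?_
  rw [mul_add]

theorem EcalF_tsum_mul (p : ℝ) (c : V d → ℝ≥0∞) (F : V d → Finset (V d) → V d → ℝ≥0∞) :
    EcalF p (fun K v => ∑' u, F u K v * c u) = fun K v => ∑' u, EcalF p (F u) K v * c u := by
  funext K v
  unfold EcalF Ecal
  have h1 : ∀ x : V d, (∑' u : V d, ∑' w : V d, ∑' L : Finset (V d),
      ker p (Del.ofSet (K : Set (V d))) v u w L * F x L w) * c x =
      ∑' u : V d, ∑' w : V d, ∑' L : Finset (V d),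
        ker p (Del.ofSet (K : Set (V d))) v u w L * (F x L w * c x) := by
    intro x
    rw [← ENNReal.tsum_mul_right]
    refine tsum_congr fun u => ?_
    rw [← ENNReal.tsum_mul_right]
    refine tsum_congr fun w => ?_
    rw [← ENNReal.tsum_mul_right]
    refine tsum_congr fun L => ?_
    rw [mul_assoc]
  simp only [h1]
  symm
  rw [ENNReal.tsum_comm]
  refine tsum_congr fun u => ?_
  rw [ENNReal.tsum_comm]
  refine tsum_congr fun w => ?_
  rw [ENNReal.tsum_comm]
  refine tsum_congr fun L => ?_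
  rw [ENNReal.tsum_mul_left]

theorem EcalF_mono {p : ℝ} {F G : Finset (V d) → V d → ℝ≥0∞} (h : ∀ K v, F K v ≤ G K v)
    (K : Finset (V d)) (v : V d) : EcalF p F K v ≤ EcalF p G K v := by
  unfold EcalF Ecal
  refine ENNReal.tsum_le_tsum fun u => ?_
  refine ENNReal.tsum_le_tsum fun w => ?_
  refine ENNReal.tsum_le_tsum fun L => ?_
  exact mul_le_mul' le_rfl (h L w)

private theorem iter_fun {p : ℝ} (hp0 : 0 ≤ p) (hp1 : p ≤ 1) (hθ : theta d p = 0) (N : ℕ)
    (x : V d) :
    (fun (K : Finset (V d)) (y : V d) => ((EcalF p)^[N] (gxF p x)) K y +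
      ((EcalF p)^[N + 1] (gxF p x)) K y) =
      fun K y => ((EcalF p)^[N] (XiF p x)) K y +
        ∑' u : V d, ((EcalF p)^[N] (XiF p u)) K y * conv (J p) (tau p) (x - u) := by
  induction N with
  | zero =>
    funext K y
    have := E1 hp0 hp1 hθ (Del.ofSet (K : Set (V d))) x y
    exact this
  | succ N ih =>
    have h1 := congrArg (EcalF p) ih
    rw [EcalF_add, EcalF_add, EcalF_tsum_mul] at h1
    simp only [Function.iterate_succ_apply'] at h1 ⊢
    exact h1

theorem iter_id {p : ℝ} (hp0 : 0 ≤ p) (hp1 : p ≤ 1) (hθ : theta d p = 0) (N : ℕ)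
    (x : V d) (K : Finset (V d)) (y : V d) :
    ((EcalF p)^[N] (gxF p x)) K y + ((EcalF p)^[N + 1] (gxF p x)) K y =
      ((EcalF p)^[N] (XiF p x)) K y +
        ∑' u : V d, ((EcalF p)^[N] (XiF p u)) K y * conv (J p) (tau p) (x - u) :=
  congrFun (congrFun (iter_fun hp0 hp1 hθ N x) K) y

theorem Rm_zero (p : ℝ) (x : V d) : Rm p 0 x = tau p x := by
  show Pr d {ω | Rch (opn p ω) 0 x ∧
    x ∉ ClA (Del.ofSet ((({0} : Finset (V d)) : Set (V d)))) (opn p ω) 0} = _
  unfold tau
  congr 1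
  ext ω
  have h1 : ClA (Del.ofSet ((({0} : Finset (V d)) : Set (V d)))) (opn p ω) 0 = ∅ := by
    apply ClA_eq_empty
    show (0 : V d) ∈ (({0} : Finset (V d)) : Set (V d))
    simp
  rw [Set.mem_ofPred_eq, Set.mem_ofPred_eq, h1]
  exact ⟨fun h => h.1, fun h => ⟨h, Set.notMem_empty x⟩⟩

private theorem ker0_eq (p : ℝ) (u v : V d) (K : Finset (V d)) :
    ker0 p u v K = ker p (Del.ofSet ((({0} : Finset (V d)) : Set (V d)))) 0 u v K := by
  unfold ker0 ker
  rw [Finset.coe_singleton]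
  simp only [dconn_iff]

private theorem Ecal0_eq (p : ℝ) (F : Finset (V d) → V d → ℝ≥0∞) :
    Ecal0 p F = EcalF p F {0} 0 := by
  unfold Ecal0 EcalF Ecal
  simp only [ker0_eq]

theorem Pm_eq_PiN (p : ℝ) (N : ℕ) (x : V d) : Pm p N x = PiN p N x := by
  rcases N with _ | N
  · show Pr d {ω | EPrime (opn p ω) 0 x (Del.ofSet ((({0} : Finset (V d)) : Set (V d))))} =
      Pr d {ω | DConn (opn p ω) 0 x}
    rw [Finset.coe_singleton]
    simp only [dconn_iff]
  · show ((EcalF p)^[N + 1] (XiF p x)) {0} 0 = Ecal0 p ((EcalF p)^[N] (XiF p x))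
    rw [Function.iterate_succ_apply', Ecal0_eq]

theorem Rm_succ_eq (p : ℝ) (N : ℕ) (x : V d) :
    Rm p (N + 1) x =
      Ecal0 p ((EcalF p)^[N] (fun A y => gx p x (Del.ofSet (A : Set (V d))) y)) := by
  show ((EcalF p)^[N + 1] (gxF p x)) {0} 0 = Ecal0 p ((EcalF p)^[N] (gxF p x))
  rw [Function.iterate_succ_apply', Ecal0_eq]

/-- the expansion, all orders -/
theorem expansion {p : ℝ} (hp0 : 0 ≤ p) (hp1 : p ≤ 1) (hθ : theta d p = 0) (N : ℕ) (x : V d) :
    Rm p N x + Rm p (N + 1) x = Pm p N x + conv (conv (Pm p N) (J p)) (tau p) x := by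
  rw [conv_assoc]
  exact iter_id hp0 hp1 hθ N x {0} 0

end Pool.Agent.PB.LE
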