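import Pool.Agent.PB.LE.Rec
import Pool.Agent.PB.LE.E1Iter
import Pool.Agent.PB.AF.Iface

/-!
# PROJECT PB, LE-Main: OUTPUT of Sections 4.1-4.4, the structure `LaceExp 1200 d`

`b = bigB d p`, `s = small d p`, `Λ = 120 b s`. The top step is the kernel at `A = {0}`, `y = 0`:
`Sg f {0} 0 = f 0`.
-/

set_option autoImplicit false
open MeasureTheory Filter Topology
open scoped ENNReal BigOperators

namespace Pool.Agent.PB.LE

variable {d : ℕ}

theorem Sg_zero (f : V d → ℝ≥0∞) : Sg f (({0} : Finset (V d)) : Set (V d)) 0 = f 0 := by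
  rw [Finset.coe_singleton, Sg_singleton, sub_zero]

theorem conv_tau_zero_le (p : ℝ) (β : V d → ℝ≥0∞) : conv (tau p) β 0 ≤ nrm β := by
  calc conv (tau p) β 0 ≤ supn (tau p) * nrm β := conv_le_supn_nrm _ _ _
    _ ≤ 1 * nrm β := by gcongr; exact supn_le fun x => tau_le_one p x
    _ = nrm β := one_mul _

theorem const_le {b s c : ℝ≥0∞} (hb : 1 ≤ b) (hc : c ≤ 2) (N : ℕ) :
    c * ((120 * b * s) ^ (N + 1) * (5 * b)) ≤ (1200 * b ^ 1200 * s) ^ (N + 1) := by
  have h1 : (1 : ℝ≥0∞) ≤ 5 * b := by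
    calc (1 : ℝ≥0∞) ≤ 5 * 1 := by norm_num
      _ ≤ 5 * b := by gcongr
  have h2 : (1 : ℝ≥0∞) ≤ 10 * b := by
    calc (1 : ℝ≥0∞) ≤ 10 * 1 := by norm_num
      _ ≤ 10 * b := by gcongr
  have h3 : 10 * b ≤ (10 * b) ^ (N + 1) := by
    calc 10 * b = (10 * b) ^ 1 := (pow_one _).symm
      _ ≤ (10 * b) ^ (N + 1) := pow_le_pow_right₀ h2 (by omega)
  have h4 : b * b ≤ b ^ 1200 := by
    calc b * b = b ^ 2 := (sq b).symm
      _ ≤ b ^ 1200 := pow_le_pow_right₀ hb (by norm_num)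
  calc c * ((120 * b * s) ^ (N + 1) * (5 * b))
      ≤ 2 * ((120 * b * s) ^ (N + 1) * (5 * b)) := by gcongr
    _ = (120 * b * s) ^ (N + 1) * (10 * b) := by ring
    _ ≤ (120 * b * s) ^ (N + 1) * (10 * b) ^ (N + 1) := by gcongr
    _ = (1200 * (b * b) * s) ^ (N + 1) := by rw [← mul_pow]; congr 1; ring
    _ ≤ (1200 * b ^ 1200 * s) ^ (N + 1) := by gcongr

theorem sum_Pm_le (p : ℝ) (N : ℕ) :
    ∑' x : V d, Pm p (N + 1) x ≤ (1200 * bigB d p ^ 1200 * small d p) ^ (N + 1) := by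
  obtain ⟨β, β', γ, h1, h2, _⟩ := joint (d := d) p (N + 1)
  have hb := one_le_bigB (d := d) p
  calc ∑' x : V d, Pm p (N + 1) x = FN p (N + 1) {0} 0 := rfl
    _ ≤ Sg (conv (tau p) β) (({0} : Finset (V d)) : Set (V d)) 0 := h2 _ _
    _ = conv (tau p) β 0 := Sg_zero _
    _ ≤ nrm β := conv_tau_zero_le p β
    _ ≤ nrm β + (nrm β' + nrm γ) := le_self_add
    _ ≤ (120 * bigB d p * small d p) ^ (N + 1) * (5 * bigB d p) := h1
    _ = 1 * ((120 * bigB d p * small d p) ^ (N + 1) * (5 * bigB d p)) := (one_mul _).symm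
    _ ≤ _ := const_le hb (by norm_num) N

theorem wsum_Pm_le (p : ℝ) (N : ℕ) (h : 1200 * bigB d p ^ 1200 * small d p ≤ 1) :
    ∑' x : V d, w2 x * Pm p (N + 1) x ≤ (1200 * bigB d p ^ 1200 * small d p) ^ (N + 1) := by
  obtain ⟨β, β', γ, h1, _, h3⟩ := joint (d := d) p (N + 1)
  have hb := one_le_bigB (d := d) p
  have hs : small d p ≤ 1 := by
    calc small d p = 1 * 1 * small d p := by rw [one_mul, one_mul]
      _ ≤ 1200 * bigB d p ^ 1200 * small d p := by
        gcongr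
        · norm_num
        · exact one_le_pow₀ hb
      _ ≤ 1 := h
  have hw : conv (tauw p) β' 0 ≤ 2 * nrm β' := by
    calc conv (tauw p) β' 0 ≤ supn (tauw p) * nrm β' := conv_le_supn_nrm _ _ _
      _ ≤ 2 * nrm β' := by
        gcongr
        refine supn_le fun x => (tauw_sup p x).trans ?_
        calc 2 * small d p ≤ 2 * 1 := by gcongr
          _ = 2 := mul_one _
  calc ∑' x : V d, w2 x * Pm p (N + 1) x = HN p (N + 1) {0} 0 := by
        unfold HN Pm
        refine tsum_congr fun x => ?_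
        rw [sub_zero]
    _ ≤ Sg (conv (tauw p) β') (({0} : Finset (V d)) : Set (V d)) 0 +
        Sg (conv (tau p) γ) (({0} : Finset (V d)) : Set (V d)) 0 := h3 _ _
    _ = conv (tauw p) β' 0 + conv (tau p) γ 0 := by rw [Sg_zero, Sg_zero]
    _ ≤ 2 * nrm β' + nrm γ := add_le_add hw (conv_tau_zero_le p γ)
    _ ≤ 2 * (nrm β + (nrm β' + nrm γ)) := by
        calc 2 * nrm β' + nrm γ ≤ 2 * nrm β' + 2 * nrm γ := by
              gcongr
              calc nrm γ = 1 * nrm γ := (one_mul _).symm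
                _ ≤ 2 * nrm γ := by gcongr; norm_num
          _ = 2 * (nrm β' + nrm γ) := (mul_add _ _ _).symm
          _ ≤ 2 * (nrm β + (nrm β' + nrm γ)) := mul_le_mul' le_rfl le_add_self
    _ ≤ 2 * ((120 * bigB d p * small d p) ^ (N + 1) * (5 * bigB d p)) := by gcongr
    _ ≤ _ := const_le hb le_rfl N

theorem rhoT_eq_le (p : ℝ) : AFB.rhoT 1200 d p = 1200 * bigB d p ^ 1200 * small d p := by
  unfold AFB.rhoT bigB small Bm Bw sm
  rw [conv_comm (tauw p)]
  norm_num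

theorem small_le_rho (p : ℝ) : small d p ≤ AFB.rhoT 1200 d p := by
  rw [rhoT_eq_le]
  have hb := one_le_bigB (d := d) p
  calc small d p = 1 * 1 * small d p := by rw [one_mul, one_mul]
    _ ≤ 1200 * bigB d p ^ 1200 * small d p := by
      gcongr
      · norm_num
      · exact one_le_pow₀ hb

theorem Pm_fun (p : ℝ) (N : ℕ) : (Pm p N : V d → ℝ≥0∞) = PiN p N := funext (Pm_eq_PiN p N)

/-- OUTPUT of Sections 4.1-4.4 -/
theorem laceExp (hpc : pc d ≤ 1) (hθ : ∀ p : ℝ, 0 ≤ p → p < pc d → theta d p = 0) :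
    AFB.LaceExp 1200 d where
  e1 p hp0 hp x := by
    have h := expansion hp0 (hp.le.trans hpc) (hθ p hp0 hp) 0 x
    rw [Rm_zero, Rm_succ_eq, Pm_eq_PiN, Pm_fun] at h
    exact h
  e2 p hp0 hp N x := by
    have h := expansion hp0 (hp.le.trans hpc) (hθ p hp0 hp) (N + 1) x
    rw [Rm_succ_eq, Rm_succ_eq, Pm_eq_PiN, Pm_fun] at h
    exact h
  b1 p _ _ := by
    have h := Pm0_le (d := d) p
    rw [Pm_fun] at h
    exact h.trans (small_le_rho p)
  b2 p _ _ := by
    have h := wPm0_le (d := d) p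
    rw [Pm_fun] at h
    exact h.trans (small_le_rho p)
  b3 p _ _ N := by
    have h := sum_Pm_le (d := d) p N
    rw [Pm_fun, ← rhoT_eq_le] at h
    exact h
  b4 p _ _ hr N := by
    rw [rhoT_eq_le] at hr
    have h := wsum_Pm_le (d := d) p N hr
    rw [Pm_fun, ← rhoT_eq_le] at h
    exact h

end Pool.Agent.PB.LE
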