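import Pool.Agent.PB.LE.TauA

/-!
# PROJECT PB, LE-TauF: facts about `τ`, `τ_w`, `bigB`, `small` (1.4 and 4.2-4.4)

Abbreviations: `t = tau p`, `tw = tauw p`, `b = bigB d p`, `s = small d p`.
PLAN.
`B`-facts: `1 ≤ t 0` (`tau_zero`), so `conv t f ≥ f` pointwise (`le_conv_of_one_le'`), hence
`cpow t 3 0 ≤ cpow t 4 0 ≤ b`, `conv t (conv t tw) 0 ≤ conv (cpow t 3) tw 0 ≤ b`, and
`supn (conv (J p) (cpow t m)) ≤ s` for `m ≤ 3`.
`g`-facts (`σ = t` or `tw`, `f = conv σ b0`, `g = conv (J p) (conv f t)`):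
`g = conv (conv (J p) (conv t σ)) b0` (`conv_assoc`, `conv_comm`), so
`supn g ≤ supn (conv (J p) (conv t σ)) * nrm b0` (`supn_conv_le`), and
`conv h g = conv (conv (J p) (conv h (conv t σ))) b0`.
`tauw_sup`: `x = 0`: `tw 0 = 0`. `x ≠ 0`: `tw x = n2 x * t x ≤ ∑' e, J p e * n2 x * t (x - e)` and
`n2 x ≤ 2 n2 (x - e) + 2 n2 e`, `n2 e = 1` if `l1 e = 1`; so
`tw x ≤ 2 conv (J p) tw x + 2 conv (J p) t x ≤ 2 s` (`conv (J p) tw ≤ conv (J p) (conv t tw)` and
`conv (J p) t ≤ conv (J p) (cpow t 3)`, `small` contains both sups).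
-/

set_option autoImplicit false
open MeasureTheory Filter Topology
open scoped ENNReal BigOperators

namespace Pool.Agent.PB.LE

variable {d : ℕ}

theorem tz (p : ℝ) : (1 : ℝ≥0∞) ≤ tau p (0 : V d) := (tau_zero p).ge

theorem one_le_bigB (p : ℝ) : 1 ≤ bigB d p := by
  unfold bigB
  rw [add_assoc]
  exact le_self_add

theorem B4_le (p : ℝ) : cpow (tau (d := d) p) 4 0 ≤ bigB d p := by
  unfold bigB
  calc cpow (tau (d := d) p) 4 0 ≤ 1 + cpow (tau (d := d) p) 4 0 := le_add_self
    _ ≤ _ := le_self_add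

theorem B3_le (p : ℝ) : conv (tau (d := d) p) (conv (tau p) (tau p)) 0 ≤ bigB d p := by
  refine le_trans ?_ (B4_le p)
  rw [cpow_four]
  exact le_conv_of_one_le' (tz p) 0

theorem Bw4_le (p : ℝ) : conv (cpow (tau (d := d) p) 3) (tauw p) 0 ≤ bigB d p := by
  unfold bigB
  exact le_add_self

theorem Bw3_le (p : ℝ) : conv (tau (d := d) p) (conv (tau p) (tauw p)) 0 ≤ bigB d p := by
  refine le_trans ?_ (Bw4_le p)
  rw [cpow_three, conv_assoc, conv_assoc]
  exact le_conv_of_one_le' (tz p) 0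

theorem small_a (p : ℝ) :
    supn (conv (J p) (cpow (tau (d := d) p) 3)) ≤ small d p := by
  unfold small
  rw [add_assoc]
  exact le_self_add

theorem small_b (p : ℝ) :
    supn (conv (J p) (conv (tau (d := d) p) (conv (tau p) (tauw p)))) ≤ small d p := by
  unfold small
  calc supn (conv (J p) (conv (tau (d := d) p) (conv (tau p) (tauw p))))
      ≤ supn (conv (J p) (cpow (tau (d := d) p) 3)) +
        supn (conv (J p) (conv (tau (d := d) p) (conv (tau p) (tauw p)))) := le_add_self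
    _ ≤ _ := le_self_add

theorem small_c (p : ℝ) :
    supn (conv (J p) (conv (tau (d := d) p) (tauw p))) ≤ small d p := by
  unfold small
  exact le_add_self

theorem s_tau2 (p : ℝ) : supn (conv (J p) (conv (tau (d := d) p) (tau p))) ≤ small d p := by
  refine le_trans ?_ (small_a p)
  rw [cpow_three]
  refine supn_mono fun x => conv_mono (fun _ => le_rfl) (fun y => ?_) x
  exact le_conv_of_one_le' (tz p) y

theorem s_tau3 (p : ℝ) :
    supn (conv (J p) (conv (tau (d := d) p) (conv (tau p) (tau p)))) ≤ small d p := by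
  refine le_trans ?_ (small_a p)
  rw [cpow_three]

theorem s_tauw2 (p : ℝ) : supn (conv (J p) (conv (tau (d := d) p) (tauw p))) ≤ small d p :=
  small_c p

theorem s_tauw3 (p : ℝ) :
    supn (conv (J p) (conv (tau (d := d) p) (conv (tau p) (tauw p)))) ≤ small d p :=
  small_b p

theorem g_eq (p : ℝ) (σ b0 : V d → ℝ≥0∞) :
    conv (J p) (conv (conv σ b0) (tau p)) = conv (conv (J p) (conv (tau p) σ)) b0 := by
  rw [conv_comm (conv σ b0) (tau p), ← conv_assoc (tau p) σ b0, ← conv_assoc]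

theorem supn_g (p : ℝ) (σ b0 : V d → ℝ≥0∞) :
    supn (conv (J p) (conv (conv σ b0) (tau p))) ≤
      supn (conv (J p) (conv (tau p) σ)) * nrm b0 := by
  rw [g_eq]
  exact supn_conv_le _ _

theorem supn_conv_g (p : ℝ) (h σ b0 : V d → ℝ≥0∞) :
    supn (conv h (conv (J p) (conv (conv σ b0) (tau p)))) ≤
      supn (conv (J p) (conv (tau p) (conv h σ))) * nrm b0 := by
  have e : conv h (conv (J p) (conv (conv σ b0) (tau p))) =
      conv (conv (J p) (conv (tau p) (conv h σ))) b0 := by
    rw [g_eq, ← conv_assoc h, ← conv_assoc h (J p), conv_comm h (J p), conv_assoc (J p) h,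
      ← conv_assoc h (tau p) σ, conv_comm h (tau p), conv_assoc (tau p) h σ]
  rw [e]
  exact supn_conv_le _ _

theorem tauw_sup (p : ℝ) (x : V d) : tauw p x ≤ 2 * small d p := by
  by_cases hx : x = 0
  · subst hx
    have h0 : n2 (0 : V d) = 0 := by simp [n2]
    unfold tauw
    rw [h0]
    simp
  have key : tauw p x ≤ 2 * conv (J p) (tauw p) x + 2 * conv (J p) (tau p) x := by
    unfold tauw
    calc (n2 x : ℝ≥0∞) * tau p x ≤ (n2 x : ℝ≥0∞) * conv (J p) (tau p) x :=
          mul_le_mul' le_rfl (tau_le_J p hx)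
      _ = ∑' e, (n2 x : ℝ≥0∞) * (J p e * tau p (x - e)) := by
          unfold conv; rw [ENNReal.tsum_mul_left]
      _ ≤ ∑' e, (2 * (J p e * ((n2 (x - e) : ℝ≥0∞) * tau p (x - e))) +
            2 * (J p e * tau p (x - e))) := by
          refine ENNReal.tsum_le_tsum fun e => ?_
          have h1 : (n2 x : ℝ≥0∞) ≤ 2 * (n2 (x - e) : ℝ≥0∞) + 2 * w2 e := by
            have := n2_add_le (x - e) e
            rw [sub_add_cancel] at this
            unfold w2
            exact_mod_cast this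
          calc (n2 x : ℝ≥0∞) * (J p e * tau p (x - e))
              ≤ (2 * (n2 (x - e) : ℝ≥0∞) + 2 * w2 e) * (J p e * tau p (x - e)) :=
                mul_le_mul' h1 le_rfl
            _ = 2 * (J p e * ((n2 (x - e) : ℝ≥0∞) * tau p (x - e))) +
                2 * ((w2 e * J p e) * tau p (x - e)) := by ring
            _ = _ := by rw [w2_mul_J]
      _ = 2 * conv (J p) (fun y => (n2 y : ℝ≥0∞) * tau p y) x + 2 * conv (J p) (tau p) x := by
          rw [ENNReal.tsum_add, ENNReal.tsum_mul_left, ENNReal.tsum_mul_left]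
          rfl
  have a1 : conv (J p) (tauw p) x ≤ supn (conv (J p) (conv (tau (d := d) p) (tauw p))) :=
    le_trans (conv_mono (fun _ => le_rfl) (fun y => le_conv_of_one_le' (tz p) y) x) (le_supn _ x)
  have a2 : conv (J p) (tau p) x ≤ supn (conv (J p) (cpow (tau (d := d) p) 3)) := by
    refine le_trans ?_ (le_supn _ x)
    rw [cpow_three]
    refine conv_mono (fun _ => le_rfl) (fun y => ?_) x
    exact le_trans (le_conv_of_one_le' (tz p) y) (le_conv_of_one_le' (tz p) y)
  refine le_trans key ?_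
  rw [← mul_add]
  refine mul_le_mul' le_rfl ?_
  refine le_trans (add_le_add a1 a2) ?_
  unfold small
  rw [add_comm (supn (conv (J p) (conv (tau (d := d) p) (tauw p)))) (supn _)]
  exact add_le_add le_self_add le_rfl

end Pool.Agent.PB.LE
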