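import Pool.Agent.PB.LE.P4
import Pool.Agent.PB.LE.TauF

/-!
# PROJECT PB, LE-Base: the base of the induction (4.3, 4.4) and the first coefficient `Π^0`

`t = tau p`, `tw = tauw p`, `b = bigB d p`, `s = small d p`.
PLAN. `sum_Xi_le`: `Xi_le`, sum over `x` first (`ENNReal.tsum_comm`, `sumA_tsum`):
`∑' x, t (x - a) * t (x - w) = conv t t (a - w)` (`x ↦ x + w`, `t` even), so the bound is
`sumA A.verts (fun a => ∑' w, t (w - y) * β0 (a - w))`, `β0 ξ = t ξ * conv t t ξ`, which is
`Sg (conv t β0) A.verts y` (`w ↦ w + y`). `nrm β0 = ∑' ξ, t ξ * conv t t ξ = conv (conv t t) t 0`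
(`conv_zero_ev`) `≤ b` (`B3_le`).
`wsum_Xi_le`: `n2 (x - y) ≤ 2 n2 (w - y) + 2 n2 (x - w)` (`n2_add_le`); first part
`2 * conv tw β0`, second `2 * t (w - y) * t (a - w) * t (x - a) * tw (x - w)`:
`γ0 ξ = 2 * t ξ * conv t tw ξ`, `nrm γ0 = 2 conv (conv t tw) t 0 ≤ 2 b` (`Bw3_le`), `β0' = 2 β0`.
Total `≤ 4 b`.
`Pi0_le`: `dconn_two` and `pr_disj2`: `Pr {DConn (opn p ω) 0 x} ≤ t x * t x`; for `x ≠ 0`,
`t x ≤ conv (J p) t x` (`tau_le_J`), so `∑' x ≠ 0 ≤ ∑' x, t x * conv (J p) t x = conv t (conv (J p) t) 0`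
(`conv_zero_ev`, `Ev.conv`, `J_ev`) `≤ supn (conv (J p) (conv t t)) ≤ s` (`s_tau2`, `conv_assoc`, `conv_comm`).
Weighted: `w2 x * (t x * t x) = tw x * t x ≤ tw x * conv (J p) t x` (`tw 0 = 0`), sum
`= conv tw (conv (J p) t) 0 ≤ supn (conv (J p) (conv t tw)) ≤ s` (`s_tauw2`).
`Pm p 0 x = Pr {DConn ..}` by `dconn_iff` (`Finset.coe_singleton`).
-/

set_option autoImplicit false
open MeasureTheory Filter Topology
open scoped ENNReal BigOperators

namespace Pool.Agent.PB.LE

variable {d : ℕ}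

/-- `∑' x, g (x - w) * t (x - a) = conv g t (a - w)` for even `t` -/
theorem tsum_two {t : V d → ℝ≥0∞} (ht : Ev t) (g : V d → ℝ≥0∞) (a w : V d) :
    ∑' x : V d, t (x - a) * g (x - w) = conv g t (a - w) := by
  unfold conv
  rw [← tsum_sub_right (fun x => g x * t (a - w - x)) w]
  refine tsum_congr fun x => ?_
  have h1 : a - w - (x - w) = -(x - a) := by abel
  rw [h1, ht, mul_comm]

/-- `∑' w, f (w - y) * g (a - w) = conv f g (a - y)` -/
theorem tsum_mid (f g : V d → ℝ≥0∞) (a y : V d) :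
    ∑' w : V d, f (w - y) * g (a - w) = conv f g (a - y) := by
  unfold conv
  rw [← tsum_sub_right (fun x => f x * g (a - y - x)) y]
  refine tsum_congr fun x => ?_
  have h1 : a - y - (x - y) = a - x := by abel
  rw [h1]

/-- the sum of a product of four lines over the far endpoint `x` -/
theorem sum_four (f g h : V d → ℝ≥0∞) {t : V d → ℝ≥0∞} (ht : Ev t) (A : Set (V d)) (y : V d) :
    ∑' x : V d, sumA A (fun a => ∑' w : V d, f (w - y) * g (a - w) * t (x - a) * h (x - w)) =
      Sg (conv f (fun ξ => g ξ * conv h t ξ)) A y := by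
  rw [← sumA_tsum]
  unfold Sg
  congr 1
  funext a
  rw [ENNReal.tsum_comm, ← tsum_mid]
  refine tsum_congr fun w => ?_
  calc ∑' x : V d, f (w - y) * g (a - w) * t (x - a) * h (x - w)
      = ∑' x : V d, f (w - y) * g (a - w) * (t (x - a) * h (x - w)) := by
        refine tsum_congr fun x => ?_
        ring
    _ = f (w - y) * g (a - w) * conv h t (a - w) := by
        rw [ENNReal.tsum_mul_left, tsum_two ht]
    _ = f (w - y) * (g (a - w) * conv h t (a - w)) := by ring

theorem sum_Xi_le (p : ℝ) :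
    ∃ β0 : V d → ℝ≥0∞, nrm β0 ≤ bigB d p ∧ ∀ (A : Del (V d)) (y : V d),
      ∑' x : V d, Xi p x A y ≤ Sg (conv (tau p) β0) A.verts y := by
  refine ⟨fun ξ => tau p ξ * conv (tau p) (tau p) ξ, ?_, ?_⟩
  · unfold nrm
    rw [← conv_zero_ev _ ((tau_ev p).conv (tau_ev p))]
    exact B3_le p
  · intro A y
    rw [← sum_four (tau p) (tau p) (tau p) (tau_ev p) A.verts y]
    exact ENNReal.tsum_le_tsum fun x => Xi_le p x A y

theorem w2_split (x y w : V d) : w2 (x - y) ≤ 2 * w2 (w - y) + 2 * w2 (x - w) := by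
  unfold w2
  have h := n2_add_le (w - y) (x - w)
  have h1 : w - y + (x - w) = x - y := by abel
  rw [h1] at h
  exact_mod_cast h

theorem w2_mul_tau (p : ℝ) (x : V d) : w2 x * tau p x = tauw p x := rfl

theorem wsum_Xi_le (p : ℝ) :
    ∃ β0 γ0 : V d → ℝ≥0∞, nrm β0 + nrm γ0 ≤ 4 * bigB d p ∧ ∀ (A : Del (V d)) (y : V d),
      ∑' x : V d, w2 (x - y) * Xi p x A y ≤
        Sg (conv (tauw p) β0) A.verts y + Sg (conv (tau p) γ0) A.verts y := by
  refine ⟨fun ξ => 2 * tau p ξ * conv (tau p) (tau p) ξ,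
    fun ξ => 2 * tau p ξ * conv (tauw p) (tau p) ξ, ?_, ?_⟩
  · have h1 : nrm (fun ξ : V d => 2 * tau p ξ * conv (tau p) (tau p) ξ) ≤ 2 * bigB d p := by
      have : (fun ξ : V d => 2 * tau p ξ * conv (tau p) (tau p) ξ) =
          fun ξ => 2 * (tau p ξ * conv (tau p) (tau p) ξ) := by
        funext ξ; ring
      rw [this, nrm_mul_left]
      refine mul_le_mul' le_rfl ?_
      unfold nrm
      rw [← conv_zero_ev _ ((tau_ev p).conv (tau_ev p))]
      exact B3_le p
    have h2 : nrm (fun ξ : V d => 2 * tau p ξ * conv (tauw p) (tau p) ξ) ≤ 2 * bigB d p := by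
      have : (fun ξ : V d => 2 * tau p ξ * conv (tauw p) (tau p) ξ) =
          fun ξ => 2 * (tau p ξ * conv (tauw p) (tau p) ξ) := by
        funext ξ; ring
      rw [this, nrm_mul_left]
      refine mul_le_mul' le_rfl ?_
      unfold nrm
      rw [← conv_zero_ev _ ((tauw_ev p).conv (tau_ev p)), conv_comm (tauw p) (tau p)]
      exact Bw3_le p
    calc _ ≤ 2 * bigB d p + 2 * bigB d p := add_le_add h1 h2
      _ = 4 * bigB d p := by ring
  · intro A y
    rw [← sum_four (tauw p) (fun ξ => 2 * tau p ξ) (tau p) (tau_ev p) A.verts y,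
      ← sum_four (tau p) (fun ξ => 2 * tau p ξ) (tauw p) (tau_ev p) A.verts y,
      ← ENNReal.tsum_add]
    refine ENNReal.tsum_le_tsum fun x => ?_
    rw [← sumA_add]
    calc w2 (x - y) * Xi p x A y
        ≤ w2 (x - y) * sumA A.verts (fun a => ∑' w : V d,
            tau p (w - y) * tau p (a - w) * tau p (x - a) * tau p (x - w)) :=
          mul_le_mul' le_rfl (Xi_le p x A y)
      _ = sumA A.verts (fun a => w2 (x - y) * ∑' w : V d,
            tau p (w - y) * tau p (a - w) * tau p (x - a) * tau p (x - w)) := by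
          rw [sumA_mul_left]
      _ ≤ _ := by
          refine sumA_mono _ fun a => ?_
          rw [← ENNReal.tsum_mul_left, ← ENNReal.tsum_add]
          refine ENNReal.tsum_le_tsum fun w => ?_
          rw [← w2_mul_tau p (w - y), ← w2_mul_tau p (x - w)]
          calc w2 (x - y) * (tau p (w - y) * tau p (a - w) * tau p (x - a) * tau p (x - w))
              ≤ (2 * w2 (w - y) + 2 * w2 (x - w)) *
                (tau p (w - y) * tau p (a - w) * tau p (x - a) * tau p (x - w)) :=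
                mul_le_mul' (w2_split x y w) le_rfl
            _ = _ := by ring

theorem Pm0_eq (p : ℝ) (x : V d) : Pm p 0 x = Pr d {ω | DConn (opn p ω) 0 x} := by
  unfold Pm
  rw [Function.iterate_zero, id]
  unfold XiF Xi
  rw [Finset.coe_singleton]
  congr 1
  ext ω
  simp only [Set.mem_ofPred_eq]
  rw [dconn_iff]

theorem Pm0_le_sq (p : ℝ) (x : V d) : Pm p 0 x ≤ tau p x * tau p x := by
  rw [Pm0_eq]
  calc Pr d {ω | DConn (opn p ω) 0 x} ≤ Pr d {ω | DisjConn (opn p ω) ![(0, x), (0, x)]} :=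
        measure_mono fun ω h => dconn_two h
    _ ≤ tau p (x - 0) * tau p (x - 0) := pr_disj2 p 0 x 0 x
    _ = tau p x * tau p x := by rw [sub_zero]

theorem conv_rot (p : ℝ) (σ : V d → ℝ≥0∞) :
    conv σ (conv (J p) (tau p)) = conv (J p) (conv (tau p) σ) := by
  rw [conv_comm σ, conv_assoc]

theorem Pm0_le (p : ℝ) : ∑' x : V d, (if x = 0 then 0 else Pm p 0 x) ≤ small d p := by
  calc ∑' x : V d, (if x = 0 then 0 else Pm p 0 x)
      ≤ ∑' x : V d, tau p x * conv (J p) (tau p) x := by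
        refine ENNReal.tsum_le_tsum fun x => ?_
        by_cases hx : x = 0
        · rw [if_pos hx]; exact zero_le
        · rw [if_neg hx]
          exact (Pm0_le_sq p x).trans (mul_le_mul' le_rfl (tau_le_J p hx))
    _ = conv (J p) (conv (tau p) (tau p)) 0 := by
        rw [← conv_zero_ev _ ((J_ev p).conv (tau_ev p)), conv_rot]
    _ ≤ supn (conv (J p) (conv (tau (d := d) p) (tau p))) := le_supn _ 0
    _ ≤ small d p := s_tau2 p

theorem wPm0_le (p : ℝ) : ∑' x : V d, w2 x * Pm p 0 x ≤ small d p := by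
  calc ∑' x : V d, w2 x * Pm p 0 x
      ≤ ∑' x : V d, tauw p x * conv (J p) (tau p) x := by
        refine ENNReal.tsum_le_tsum fun x => ?_
        by_cases hx : x = 0
        · subst hx
          have : w2 (0 : V d) = 0 := by simp [w2, n2]
          rw [this, zero_mul]; exact zero_le
        · calc w2 x * Pm p 0 x ≤ w2 x * (tau p x * tau p x) :=
                mul_le_mul' le_rfl (Pm0_le_sq p x)
            _ = tauw p x * tau p x := by rw [← w2_mul_tau]; ring
            _ ≤ _ := mul_le_mul' le_rfl (tau_le_J p hx)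
    _ = conv (J p) (conv (tau p) (tauw p)) 0 := by
        rw [← conv_zero_ev _ ((J_ev p).conv (tau_ev p)), conv_rot]
    _ ≤ supn (conv (J p) (conv (tau (d := d) p) (tauw p))) := le_supn _ 0
    _ ≤ small d p := s_tauw2 p

end Pool.Agent.PB.LE
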