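import Pool.Agent.PB.LE.Defs

/-!
# PROJECT PB, part LE: algebra of convolutions in `[0,∞]`
-/

set_option autoImplicit false
open MeasureTheory Filter Topology
open scoped ENNReal BigOperators

namespace Pool.Agent.PB.LE

variable {d : ℕ}

theorem tsum_sub_right (f : V d → ℝ≥0∞) (a : V d) : ∑' x, f (x - a) = ∑' x, f x :=
  (Equiv.subRight a).tsum_eq f

theorem tsum_add_right (f : V d → ℝ≥0∞) (a : V d) : ∑' x, f (x + a) = ∑' x, f x :=
  (Equiv.addRight a).tsum_eq f

theorem tsum_sub_left (f : V d → ℝ≥0∞) (a : V d) : ∑' x, f (a - x) = ∑' x, f x :=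
  (Equiv.subLeft a).tsum_eq f

theorem tsum_neg (f : V d → ℝ≥0∞) : ∑' x, f (-x) = ∑' x, f x :=
  (Equiv.neg (V d)).tsum_eq f

theorem le_supn (f : V d → ℝ≥0∞) (x : V d) : f x ≤ supn f := le_iSup f x

theorem supn_le {f : V d → ℝ≥0∞} {c : ℝ≥0∞} (h : ∀ x, f x ≤ c) : supn f ≤ c := iSup_le h

theorem supn_mono {f g : V d → ℝ≥0∞} (h : ∀ x, f x ≤ g x) : supn f ≤ supn g := iSup_mono h

theorem conv_comm (f g : V d → ℝ≥0∞) : conv f g = conv g f := by
  funext x
  unfold conv
  rw [← tsum_sub_left _ x]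
  refine tsum_congr fun y => ?_
  rw [sub_sub_cancel, mul_comm]

theorem conv_assoc (f g h : V d → ℝ≥0∞) : conv (conv f g) h = conv f (conv g h) := by
  funext x
  unfold conv
  calc ∑' y, (∑' z, f z * g (y - z)) * h (x - y)
      = ∑' y, ∑' z, f z * g (y - z) * h (x - y) := by
        refine tsum_congr fun y => ?_
        rw [ENNReal.tsum_mul_right]
    _ = ∑' z, ∑' y, f z * g (y - z) * h (x - y) := ENNReal.tsum_comm
    _ = ∑' z, f z * ∑' y, g y * h (x - z - y) := by
        refine tsum_congr fun z => ?_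
        rw [← ENNReal.tsum_mul_left,
          ← tsum_sub_right (fun y => f z * (g y * h (x - z - y))) z]
        refine tsum_congr fun y => ?_
        rw [mul_assoc, sub_sub, add_sub_cancel]

theorem conv_mono {f f' g g' : V d → ℝ≥0∞} (hf : ∀ x, f x ≤ f' x) (hg : ∀ x, g x ≤ g' x)
    (x : V d) : conv f g x ≤ conv f' g' x :=
  ENNReal.tsum_le_tsum fun y => mul_le_mul' (hf y) (hg _)

theorem Ev.conv {f g : V d → ℝ≥0∞} (hf : Ev f) (hg : Ev g) : Ev (conv f g) := by
  intro x
  unfold PB.conv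
  rw [← tsum_neg]
  refine tsum_congr fun y => ?_
  rw [hf y, ← hg (x - y)]
  congr 2
  abel

theorem dlt_ev : Ev (dlt (d := d)) := by
  intro x; simp [dlt]

theorem Ev.cpow {f : V d → ℝ≥0∞} (hf : Ev f) (m : ℕ) : Ev (cpow f m) := by
  induction m with
  | zero => exact dlt_ev
  | succ m ih => exact hf.conv ih

theorem conv_dlt (f : V d → ℝ≥0∞) : conv f dlt = f := by
  classical
  funext x
  unfold conv dlt
  rw [tsum_eq_single x]
  · simp
  · intro y hy
    have : x - y ≠ 0 := fun h => hy (sub_eq_zero.1 h).symm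
    simp [this]

theorem dlt_conv (f : V d → ℝ≥0∞) : conv dlt f = f := by rw [conv_comm, conv_dlt]

theorem cpow_zero (f : V d → ℝ≥0∞) : cpow f 0 = dlt := rfl

theorem cpow_succ (f : V d → ℝ≥0∞) (m : ℕ) : cpow f (m + 1) = conv f (cpow f m) := rfl

theorem cpow_one (f : V d → ℝ≥0∞) : cpow f 1 = f := conv_dlt f

theorem cpow_two (f : V d → ℝ≥0∞) : cpow f 2 = conv f f := by
  rw [cpow_succ, cpow_one]

theorem cpow_three (f : V d → ℝ≥0∞) : cpow f 3 = conv f (conv f f) := by
  rw [cpow_succ, cpow_two]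

theorem cpow_four (f : V d → ℝ≥0∞) : cpow f 4 = conv f (conv f (conv f f)) := by
  rw [cpow_succ, cpow_three]

theorem cpow_add (f : V d → ℝ≥0∞) (m n : ℕ) : cpow f (m + n) = conv (cpow f m) (cpow f n) := by
  induction m with
  | zero => rw [Nat.zero_add, cpow_zero, dlt_conv]
  | succ m ih => rw [Nat.add_right_comm, cpow_succ, ih, cpow_succ, conv_assoc]

theorem nrm_conv (f g : V d → ℝ≥0∞) : nrm (conv f g) = nrm f * nrm g := by
  unfold nrm conv
  rw [ENNReal.tsum_comm, ← ENNReal.tsum_mul_right]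
  refine tsum_congr fun y => ?_
  rw [ENNReal.tsum_mul_left, tsum_sub_right]

theorem nrm_add (f g : V d → ℝ≥0∞) : nrm (fun x => f x + g x) = nrm f + nrm g :=
  ENNReal.tsum_add

theorem nrm_mul_left (c : ℝ≥0∞) (f : V d → ℝ≥0∞) : nrm (fun x => c * f x) = c * nrm f :=
  ENNReal.tsum_mul_left

theorem nrm_mono {f g : V d → ℝ≥0∞} (h : ∀ x, f x ≤ g x) : nrm f ≤ nrm g :=
  ENNReal.tsum_le_tsum h

theorem conv_le_supn_nrm (f g : V d → ℝ≥0∞) (x : V d) : conv f g x ≤ supn f * nrm g := by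
  unfold conv
  calc ∑' y, f y * g (x - y) ≤ ∑' y, supn f * g (x - y) :=
        ENNReal.tsum_le_tsum fun y => mul_le_mul' (le_supn f y) le_rfl
    _ = supn f * nrm g := by
        rw [ENNReal.tsum_mul_left, tsum_sub_left]; rfl

theorem supn_conv_le (f g : V d → ℝ≥0∞) : supn (conv f g) ≤ supn f * nrm g :=
  supn_le fun x => conv_le_supn_nrm f g x

theorem conv_zero_ev (f : V d → ℝ≥0∞) {g : V d → ℝ≥0∞} (hg : Ev g) :
    conv f g 0 = ∑' x, f x * g x := by
  unfold conv
  refine tsum_congr fun y => ?_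
  rw [zero_sub, hg]

theorem conv_add_right (f g h : V d → ℝ≥0∞) (x : V d) :
    conv f (fun y => g y + h y) x = conv f g x + conv f h x := by
  unfold conv
  rw [← ENNReal.tsum_add]
  refine tsum_congr fun y => ?_
  rw [mul_add]

theorem conv_add_left (f g h : V d → ℝ≥0∞) (x : V d) :
    conv (fun y => f y + g y) h x = conv f h x + conv g h x := by
  unfold conv
  rw [← ENNReal.tsum_add]
  refine tsum_congr fun y => ?_
  rw [add_mul]

theorem conv_mul_right (c : ℝ≥0∞) (f g : V d → ℝ≥0∞) (x : V d) :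
    conv f (fun y => c * g y) x = c * conv f g x := by
  unfold conv
  rw [← ENNReal.tsum_mul_left]
  refine tsum_congr fun y => ?_
  ring

theorem conv_mul_left (c : ℝ≥0∞) (f g : V d → ℝ≥0∞) (x : V d) :
    conv (fun y => c * f y) g x = c * conv f g x := by
  unfold conv
  rw [← ENNReal.tsum_mul_left]
  refine tsum_congr fun y => ?_
  ring

theorem le_conv_of_one_le {f g : V d → ℝ≥0∞} (hg : 1 ≤ g 0) (x : V d) : f x ≤ conv f g x := by
  unfold conv
  calc f x ≤ f x * g (x - x) := by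
        rw [sub_self]; exact le_mul_of_one_le_right zero_le hg
    _ ≤ _ := ENNReal.le_tsum x

theorem le_conv_of_one_le' {f g : V d → ℝ≥0∞} (hf : 1 ≤ f 0) (x : V d) : g x ≤ conv f g x := by
  rw [conv_comm]; exact le_conv_of_one_le hf x

/-! ### `sumA`, `Sg` -/

theorem sumA_mono (A : Set (V d)) {f g : V d → ℝ≥0∞} (h : ∀ x, f x ≤ g x) :
    sumA A f ≤ sumA A g := ENNReal.tsum_le_tsum fun a => h a

theorem sumA_add (A : Set (V d)) (f g : V d → ℝ≥0∞) :
    sumA A (fun x => f x + g x) = sumA A f + sumA A g := ENNReal.tsum_add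

theorem sumA_mul_left (A : Set (V d)) (c : ℝ≥0∞) (f : V d → ℝ≥0∞) :
    sumA A (fun x => c * f x) = c * sumA A f := ENNReal.tsum_mul_left

theorem sumA_tsum {ι : Type*} (A : Set (V d)) (f : ι → V d → ℝ≥0∞) :
    sumA A (fun x => ∑' i, f i x) = ∑' i, sumA A (f i) := ENNReal.tsum_comm

theorem sumA_singleton (a : V d) (f : V d → ℝ≥0∞) : sumA {a} f = f a := by
  unfold sumA
  rw [tsum_singleton a f]

theorem Sg_mono {f g : V d → ℝ≥0∞} (h : ∀ x, f x ≤ g x) (A : Set (V d)) (y : V d) :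
    Sg f A y ≤ Sg g A y := sumA_mono A fun a => h (a - y)

theorem Sg_add (f g : V d → ℝ≥0∞) (A : Set (V d)) (y : V d) :
    Sg (fun x => f x + g x) A y = Sg f A y + Sg g A y := sumA_add A _ _

theorem Sg_mul_left (c : ℝ≥0∞) (f : V d → ℝ≥0∞) (A : Set (V d)) (y : V d) :
    Sg (fun x => c * f x) A y = c * Sg f A y := sumA_mul_left A c _

theorem Sg_singleton (f : V d → ℝ≥0∞) (a y : V d) : Sg f {a} y = f (a - y) := by
  unfold Sg; rw [sumA_singleton]

theorem sumA_eq_tsum_indicator (A : Set (V d)) (f : V d → ℝ≥0∞) :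
    sumA A f = ∑' x, A.indicator f x := tsum_subtype A f

end Pool.Agent.PB.LE
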