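import Pool.Agent.PB.Meas

/-!
# PROJECT PB, part LE (Sections 4.1-4.4 of pb_proof_1.md): definitions

The top step of the expansion is the special case `A = {0}`, `y = 0` of the kernel:
`DConn O y u ↔ EPrime O y u (Del.ofSet {y})`, so `Ecal0 p F = Ecal p F (ofSet {0}) 0` and
`PiN p N x = (EcalF p)^[N] (XiF p x) {0} 0`. Only the general kernel has to be bounded.
-/

set_option autoImplicit false
open MeasureTheory Filter Topology
open scoped ENNReal BigOperators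

namespace Pool.Agent.PB.LE

/-- the step event: `(u,v)` is the first separating edge whose near endpoint `u` is not in
`C_A(O,y)` (2.5 with `T = {x}`); `K = C(O \ e, y)`, `e = {u,v}`, `x` is reached from `v` off `K`. -/
def StepE {W : Type*} (O : Set (Sym2 W)) (y : W) (A : Del W) (x u v : W) : Prop :=
  s(u, v) ∈ O ∧ EPrime (del1 O s(u, v)) y u A ∧
    x ∈ ClA (Del.ofSet (Cl (del1 O s(u, v)) y)) O v

variable {d : ℕ}

/-- even function -/
def Ev (f : V d → ℝ≥0∞) : Prop := ∀ x, f (-x) = f x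

/-- `Σ_{a ∈ A} f(a - y)` -/
noncomputable def Sg (f : V d → ℝ≥0∞) (A : Set (V d)) (y : V d) : ℝ≥0∞ :=
  sumA A (fun a => f (a - y))

/-- `Ξ_x` as a function of (finite vertex set, vertex) -/
noncomputable def XiF (p : ℝ) (x : V d) : Finset (V d) → V d → ℝ≥0∞ :=
  fun K v => Xi p x (Del.ofSet (K : Set (V d))) v

/-- `g_x` as a function of (finite vertex set, vertex) -/
noncomputable def gxF (p : ℝ) (x : V d) : Finset (V d) → V d → ℝ≥0∞ :=
  fun K v => gx p x (Del.ofSet (K : Set (V d))) v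

/-- the kernel with an extra weight `wt(v - y)` -/
noncomputable def Ew (p : ℝ) (wt : V d → ℝ≥0∞) (F : Finset (V d) → V d → ℝ≥0∞)
    (A : Del (V d)) (y : V d) : ℝ≥0∞ :=
  ∑' u : V d, ∑' v : V d, ∑' K : Finset (V d), wt (v - y) * ker p A y u v K * F K v

/-- `|x|_2^2` as a weight -/
noncomputable def w2 (x : V d) : ℝ≥0∞ := (n2 x : ℝ≥0∞)

/-! the four types of 4.2; `f1, …, f5` are the lines, `g` a function of `z - u` -/

/-- type 1 -/
noncomputable def X1 (f1 f2 f3 f4 f5 g : V d → ℝ≥0∞) (y a : V d) : ℝ≥0∞ :=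
  ∑' w : V d, ∑' z : V d, ∑' u : V d,
    f1 (z - y) * f2 (w - z) * f3 (a - w) * f4 (u - w) * f5 (u - a) * g (z - u)

/-- type 2 -/
noncomputable def X2 (f1 f2 f3 f4 f5 g : V d → ℝ≥0∞) (y a : V d) : ℝ≥0∞ :=
  ∑' w : V d, ∑' z : V d, ∑' u : V d,
    f1 (w - y) * f2 (z - w) * f3 (a - z) * f4 (u - w) * f5 (u - a) * g (z - u)

/-- type 3 -/
noncomputable def X3 (f1 f2 f3 f4 f5 g : V d → ℝ≥0∞) (y a : V d) : ℝ≥0∞ :=
  ∑' w : V d, ∑' z : V d, ∑' u : V d,
    f1 (w - y) * f2 (a - w) * f3 (z - w) * f4 (u - z) * f5 (u - a) * g (z - u)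

/-- type 4 -/
noncomputable def X4 (f1 f2 f3 f4 f5 g : V d → ℝ≥0∞) (y a : V d) : ℝ≥0∞ :=
  ∑' w : V d, ∑' z : V d, ∑' u : V d,
    f1 (w - y) * f2 (a - w) * f3 (u - w) * f4 (z - u) * f5 (a - z) * g (z - u)

/-- the six-line products of 4.2 without the line `τ(c - z)`, all four types -/
noncomputable def t4 (p : ℝ) (y a u w z : V d) : ℝ≥0∞ :=
  tau p (z - y) * tau p (w - z) * tau p (a - w) * tau p (u - w) * tau p (u - a) +
  tau p (w - y) * tau p (z - w) * tau p (a - z) * tau p (u - w) * tau p (u - a) +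
  tau p (w - y) * tau p (a - w) * tau p (z - w) * tau p (u - z) * tau p (u - a) +
  tau p (w - y) * tau p (a - w) * tau p (u - w) * tau p (z - u) * tau p (a - z)

/-- `1 + B_4 + B^w_4` -/
noncomputable def bigB (d : ℕ) (p : ℝ) : ℝ≥0∞ :=
  1 + cpow (tau (d := d) p) 4 0 + conv (cpow (tau (d := d) p) 3) (tauw p) 0

/-- the sum of all small quantities -/
noncomputable def small (d : ℕ) (p : ℝ) : ℝ≥0∞ :=
  supn (conv (J p) (cpow (tau (d := d) p) 3)) +
    supn (conv (J p) (conv (tau (d := d) p) (conv (tau p) (tauw p)))) +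
    supn (conv (J p) (conv (tau (d := d) p) (tauw p)))

/-- `Σ_x (ℰ^N Ξ_x)(K, v)` -/
noncomputable def FN (p : ℝ) (N : ℕ) (K : Finset (V d)) (v : V d) : ℝ≥0∞ :=
  ∑' x : V d, ((EcalF p)^[N] (XiF p x)) K v

/-- `Σ_x |x - v|² (ℰ^N Ξ_x)(K, v)` -/
noncomputable def HN (p : ℝ) (N : ℕ) (K : Finset (V d)) (v : V d) : ℝ≥0∞ :=
  ∑' x : V d, w2 (x - v) * ((EcalF p)^[N] (XiF p x)) K v

/-- `(ℰ^N g_x)({0}, 0)`: the remainder; `Rm p 0 x = τ_p(x)` -/
noncomputable def Rm (p : ℝ) (N : ℕ) (x : V d) : ℝ≥0∞ := ((EcalF p)^[N] (gxF p x)) {0} 0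

/-- `(ℰ^N Ξ_x)({0}, 0) = Π^N(x)` -/
noncomputable def Pm (p : ℝ) (N : ℕ) (x : V d) : ℝ≥0∞ := ((EcalF p)^[N] (XiF p x)) {0} 0

end Pool.Agent.PB.LE
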