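import Pool.Agent.PB.LE.Defs
import Pool.Agent.PB.P.Loc
import Pool.Agent.PB.G.KernB
import Pool.Agent.PB.G.Diag

/-!
# PROJECT PB, LE-DetI: the deterministic facts used in Section 4
(derived from helper88's Section 2 files `Pool/Agent/PB/G/*`; `O` is an arbitrary edge set).
-/

set_option autoImplicit false
open scoped BigOperators

namespace Pool.Agent.PB.LE

variable {W : Type*} {O O' : Set (Sym2 W)} {x y u v u' v' c : W} {A : Del W}

theorem rchA_single : RchA A O y {x} ↔ x ∈ ClA A O y := by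
  simp [RchA]

/-- the step event is helper88's `KD` with `T = {x}` -/
theorem stepE_iff : StepE O y A x u v ↔ KD O y {x} A u v := by
  constructor
  · rintro ⟨h1, h2, h3⟩
    refine ⟨h1, h2, h3.1, ?_, rchA_single.2 h3⟩
    rw [Set.disjoint_singleton_right]
    exact ClA_disjoint h3
  · rintro ⟨h1, h2, _, _, h5⟩
    exact ⟨h1, h2, rchA_single.1 h5⟩

/-- 2.5 with `T = {x}` -/
theorem step_decomp :
    (Rch O y x ∧ x ∉ ClA A O y) ↔ (EPrime O y x A ∨ ∃ u v, StepE O y A x u v) := by
  constructor
  · rintro ⟨h1, h2⟩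
    rcases kernel_exists (T := {x}) A (rchT_singleton.2 h1) with h | ⟨u, v, h⟩ | h
    · exact absurd (rchA_single.1 h) h2
    · exact Or.inr ⟨u, v, stepE_iff.2 h⟩
    · exact Or.inl (caseIII_iff_EPrime.1 ⟨h1, h⟩)
  · rintro (h | ⟨u, v, h⟩)
    · exact ⟨h.1, h.2.1⟩
    · have h' := stepE_iff.1 h
      exact ⟨rchT_singleton.1 h'.rchT, fun hx => h'.not_rchA (rchA_single.2 hx)⟩

theorem step_not_eprime (h : StepE O y A x u v) : ¬ EPrime O y x A :=
  fun h' => (stepE_iff.1 h).not_caseIII (caseIII_iff_EPrime.2 h').2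

theorem step_unique (h : StepE O y A x u v) (h' : StepE O y A x u' v') : u = u' ∧ v = v' :=
  (stepE_iff.1 h).unique (stepE_iff.1 h')

/-- removing the edge `e = {u,v}` whose far endpoint is not reached does not change `E'` at `u` -/
theorem eprime_del1_iff (hu : u ∈ Cl (del1 O s(u, v)) y) (hv : v ∉ Cl (del1 O s(u, v)) y) :
    EPrime (del1 O s(u, v)) y u A ↔ EPrime O y u A := EPrime_del1_iff hu hv

/-- `E'` depends only on the edges touching the cluster -/
theorem eprime_congr {K : Set W} (hK : Cl O y = K) (h : O ∩ touch K = O' ∩ touch K) :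
    EPrime O y u A ↔ EPrime O' y u A := by
  have hK' : Cl O' y = K := (Cl_eq_congr h).1 hK
  have hyK : y ∈ K := hK ▸ self_mem_Cl O y
  -- one direction of everything, for a pair of edge sets with the same trace
  have key : ∀ {O O' : Set (Sym2 W)}, Cl O y = K → Cl O' y = K → O ∩ touch K = O' ∩ touch K →
      EPrime O y u A → EPrime O' y u A := by
    intro O O' hK hK' h hE
    have hR : ∀ z, Rch O y z ↔ Rch O' y z := by
      intro z
      rw [Rch_sub_touch hK subset_rfl hyK, Rch_sub_touch hK' subset_rfl hyK, h]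
    have hA : ∀ z, z ∈ ClA A O y ↔ z ∈ ClA A O' y := by
      intro z
      rw [mem_ClA, mem_ClA, Rch_sub_touch hK (A.rem_subset O) hyK,
        Rch_sub_touch hK' (A.rem_subset O') hyK, ← rem_inter, ← rem_inter, h]
    have hD : ∀ (e : Sym2 W) (z : W), Rch (del1 O e) y z ↔ Rch (del1 O' e) y z := by
      intro e z
      rw [Rch_sub_touch hK (del1_subset O e) hyK, Rch_sub_touch hK' (del1_subset O' e) hyK,
        ← del1_inter, ← del1_inter, h]
    refine ⟨(hR u).1 hE.1, fun hu => hE.2.1 ((hA u).2 hu), ?_⟩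
    rintro e ⟨heO, hsep⟩ u' hu' hr
    have heO' : e ∈ O := by
      by_contra hne
      -- `e ∉ O`: then `e` does not touch `K`, so removing it from `O'` does not disconnect
      have hnt : e ∉ touch K := fun ht => hne (show e ∈ O from ((h ▸ (⟨heO, ht⟩ : e ∈ O' ∩ touch K) :
        e ∈ O ∩ touch K)).1)
      apply hsep
      refine ⟨u, rfl, (hD e u).1 ?_⟩
      rw [del1_of_notMem hne]
      exact hE.1
    refine (hA u').1 (hE.2.2 e ⟨heO', ?_⟩ u' hu' ((hD e u').2 hr))
    rintro ⟨t, ht, hrt⟩
    exact hsep ⟨t, ht, (hD e t).1 hrt⟩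
  exact ⟨key hK hK' h, key hK' hK h.symm⟩

/-- 2.7 -/
theorem eprime_four (h : EPrime O y u A) :
    ∃ a ∈ A.verts, ∃ w, DisjConn O ![(y, w), (w, a), (a, u), (w, u)] := h.tbound

/-- reorder a family of edge-disjoint connections -/
theorem disjConn_reorder {k m : ℕ} {q : Fin k → W × W} {q' : Fin m → W × W} (h : DisjConn O q)
    (f : Fin m → Fin k) (hf : Function.Injective f) (hq : ∀ i, q (f i) = q' i) :
    DisjConn O q' := by
  have h1 := h.comp hf
  have h2 : q ∘ f = q' := funext hq
  rwa [h2] at h1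

/-- reorder and reverse -/
theorem disjConn_swap {k : ℕ} {q q' : Fin k → W × W} (h : DisjConn O q)
    (hq : ∀ i, q' i = q i ∨ q' i = ((q i).2, (q i).1)) : DisjConn O q' := by
  obtain ⟨S, h1, h2, h3⟩ := h
  refine ⟨S, h1, h2, fun j => ?_⟩
  rcases hq j with h | h
  · rw [h]; exact h3 j
  · rw [h]; exact (h3 j).symm

/-- 2.8 applied to the four connections of 2.7 -/
theorem attach_four {a w : W} (h : DisjConn O ![(y, w), (w, a), (a, u), (w, u)])
    (hc : Rch O y c) : ∃ z,
      DisjConn O ![(y, z), (z, w), (w, a), (a, u), (w, u), (z, c)] ∨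
      DisjConn O ![(y, w), (w, z), (z, a), (a, u), (w, u), (z, c)] ∨
      DisjConn O ![(y, w), (w, a), (w, z), (z, u), (a, u), (z, c)] ∨
      DisjConn O ![(y, w), (w, a), (w, u), (u, z), (z, a), (z, c)] := by
  obtain ⟨j, z, hz⟩ := attach h (0 : Fin 4) (c := c) hc
  refine ⟨z, ?_⟩
  fin_cases j
  · left
    refine disjConn_reorder hz ![2, 0, 3, 4, 5, 1] (by decide) ?_
    intro i; fin_cases i <;> rfl
  · right; left
    refine disjConn_reorder hz ![2, 3, 0, 4, 5, 1] (by decide) ?_
    intro i; fin_cases i <;> rfl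
  · right; right; right
    have h1 : DisjConn O ![(y, w), (w, a), (w, u), (z, u), (a, z), (z, c)] := by
      refine disjConn_reorder hz ![2, 3, 5, 0, 4, 1] (by decide) ?_
      intro i; fin_cases i <;> rfl
    refine disjConn_swap h1 ?_
    intro i
    fin_cases i
    · exact Or.inl rfl
    · exact Or.inl rfl
    · exact Or.inl rfl
    · exact Or.inr rfl
    · exact Or.inr rfl
    · exact Or.inl rfl
  · right; right; left
    refine disjConn_reorder hz ![2, 3, 5, 0, 4, 1] (by decide) ?_
    intro i; fin_cases i <;> rfl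

theorem dconn_iff : DConn O y u ↔ EPrime O y u (Del.ofSet {y}) := DConn_iff_EPrime.symm

theorem dconn_two (h : DConn O y u) : DisjConn O ![(y, u), (y, u)] := h.two

end Pool.Agent.PB.LE
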