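import Pool.Agent.PB.LE.P4

/-!
# PROJECT PB, LE-Dia: from the kernel to diagrams (first half of 4.2)

PLAN. `ker_sum_le`: `ker p A y u v K * F K v ≤ J p (v-u) * Pr{EPrime ∧ Cl (del1 O e) y = K} * Sg f K v`
and `Sg f K v = ∑' c, (K : Set _).indicator (fun c => f (c - v)) c` (`sumA_eq_tsum_indicator`).
Exchange the sums over `K` and `c` (`ENNReal.tsum_comm`): for fixed `c`,
`∑' K, Pr{EPrime ∧ Cl (del1 O e) y = K} * 1{c ∈ K} ≤ Pr {EPrime (opn p ω) y u A ∧ Rch (opn p ω) y c}`
(disjoint events for different `K`: `measure_iUnion` on `⋃ K, {.. ∧ Cl .. = K ∧ c ∈ K}`, which is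
contained in the event on the right since `Cl (del1 O e) y ⊆ Cl O y`; measurability `MES.eprime`,
`MES.del1`, `MES.cl`, `MVS.eq_set`, `opn_MES`).
`Ew_le_dia`: insert `pr_eprime_conn`; `∑' c, tau p (c - z) * f (c - v) = conv f (tau p) (z - v)`
(`tau_ev`, `tsum_sub_right`); exchange sums (`ENNReal.tsum_comm`, `ENNReal.tsum_mul_left/right`,
`sumA_tsum`) to bring `sumA A.verts` outside.
`Ecal_le_dia` is the case `wt = 1` (`∑' v, J p (v-u) * conv f (tau p) (z-v) = conv (J p) (conv f (tau p)) (z-u)`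
by `tsum_sub_right`): the four types of `t4` become `X1 .. X4` with all lines `tau p` and
`g = conv (J p) (conv f (tau p))`.
-/

set_option autoImplicit false
open MeasureTheory Filter Topology
open scoped ENNReal BigOperators

namespace Pool.Agent.PB.LE

variable {d : ℕ}

private theorem dia_tsum3 {α β γ : Type} (H : α → β → γ → ℝ≥0∞) :
    ∑' u, ∑' v, ∑' c, H u v c = ∑' q : α × β × γ, H q.1 q.2.1 q.2.2 := by
  rw [ENNReal.tsum_prod (f := fun u (q : β × γ) => H u q.1 q.2)]
  refine tsum_congr fun u => ?_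
  rw [ENNReal.tsum_prod (f := fun v c => H u v c)]

private theorem dia_comm {α β γ α' β' γ' : Type} (G : α → β → γ → α' → β' → γ' → ℝ≥0∞) :
    ∑' u, ∑' v, ∑' c, ∑' a, ∑' w, ∑' z, G u v c a w z =
      ∑' a, ∑' w, ∑' z, ∑' u, ∑' v, ∑' c, G u v c a w z := by
  rw [dia_tsum3 (fun u v c => ∑' a, ∑' w, ∑' z, G u v c a w z),
    dia_tsum3 (fun a w z => ∑' u, ∑' v, ∑' c, G u v c a w z)]
  have e1 : ∀ q : α × β × γ, ∑' a, ∑' w, ∑' z, G q.1 q.2.1 q.2.2 a w z =
      ∑' r : α' × β' × γ', G q.1 q.2.1 q.2.2 r.1 r.2.1 r.2.2 := fun q =>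
    dia_tsum3 (fun a w z => G q.1 q.2.1 q.2.2 a w z)
  have e2 : ∀ r : α' × β' × γ', ∑' u, ∑' v, ∑' c, G u v c r.1 r.2.1 r.2.2 =
      ∑' q : α × β × γ, G q.1 q.2.1 q.2.2 r.1 r.2.1 r.2.2 := fun r =>
    dia_tsum3 (fun u v c => G u v c r.1 r.2.1 r.2.2)
  simp only [e1, e2]
  exact ENNReal.tsum_comm

private theorem dia_pr (p : ℝ) (A : Del (V d)) (y u v c : V d) :
    ∑' K : Finset (V d), Pr d ({ω | EPrime (opn p ω) y u A ∧
        Cl (del1 (opn p ω) s(u, v)) y = (K : Set (V d))} ∩ {_ω | c ∈ K}) ≤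
      Pr d {ω | EPrime (opn p ω) y u A ∧ Rch (opn p ω) y c} := by
  have hmeas : ∀ K : Finset (V d), MeasurableSet ({ω : Om d | EPrime (opn p ω) y u A ∧
        Cl (del1 (opn p ω) s(u, v)) y = (K : Set (V d))} ∩ {_ω | c ∈ K}) := by
    intro K
    refine MeasurableSet.inter (MeasurableSet.inter ?_ ?_) (MeasurableSet.const _)
    · exact (opn_MES p).eprime y u A
    · exact (((opn_MES p).del1 s(u, v)).cl y).eq_set (K : Set (V d))
  have hdisj : Pairwise (Function.onFun Disjoint fun K : Finset (V d) =>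
      ({ω : Om d | EPrime (opn p ω) y u A ∧
        Cl (del1 (opn p ω) s(u, v)) y = (K : Set (V d))} ∩ {_ω | c ∈ K})) := by
    intro K K' hne
    refine Set.disjoint_left.2 ?_
    rintro ω ⟨⟨_, h1⟩, _⟩ ⟨⟨_, h2⟩, _⟩
    exact hne (Finset.coe_injective (h1.symm.trans h2))
  rw [← measure_iUnion hdisj hmeas]
  refine measure_mono ?_
  intro ω hω
  obtain ⟨K, ⟨h1, h2⟩, h3⟩ := Set.mem_iUnion.1 hω
  refine ⟨h1, ?_⟩
  have h4 : c ∈ Cl (del1 (opn p ω) s(u, v)) y := by
    rw [h2]
    exact Finset.mem_coe.2 h3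
  exact Rch.mono (del1_subset _ _) h4

theorem ker_sum_le (p : ℝ) {F : Finset (V d) → V d → ℝ≥0∞} {f : V d → ℝ≥0∞}
    (hF : ∀ K v, F K v ≤ Sg f (K : Set (V d)) v) (A : Del (V d)) (y u v : V d) :
    ∑' K : Finset (V d), ker p A y u v K * F K v ≤
      J p (v - u) * ∑' c : V d,
        Pr d {ω | EPrime (opn p ω) y u A ∧ Rch (opn p ω) y c} * f (c - v) := by
  classical
  set B : Finset (V d) → Set (Om d) := fun K => {ω | EPrime (opn p ω) y u A ∧
    Cl (del1 (opn p ω) s(u, v)) y = (K : Set (V d))} with hB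
  have h1 : ∀ K : Finset (V d), ker p A y u v K * F K v ≤
      J p (v - u) * ∑' c : V d, Pr d (B K ∩ {_ω | c ∈ K}) * f (c - v) := by
    intro K
    have e1 : ker p A y u v K = J p (v - u) * Pr d (B K) := rfl
    rw [e1, mul_assoc]
    refine mul_le_mul_right (le_trans (mul_le_mul_right (hF K v) _) ?_) _
    unfold Sg
    rw [sumA_eq_tsum_indicator, ← ENNReal.tsum_mul_left]
    refine ENNReal.tsum_le_tsum fun c => ?_
    by_cases hc : c ∈ K
    · have e2 : (B K ∩ {_ω | c ∈ K}) = B K := by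
        ext ω
        exact ⟨fun h => h.1, fun h => ⟨h, hc⟩⟩
      rw [e2, Set.indicator_of_mem (Finset.mem_coe.2 hc)]
    · rw [Set.indicator_of_notMem (fun h => hc (Finset.mem_coe.1 h)), mul_zero]
      exact zero_le
  calc ∑' K : Finset (V d), ker p A y u v K * F K v
      ≤ ∑' K : Finset (V d), J p (v - u) * ∑' c : V d, Pr d (B K ∩ {_ω | c ∈ K}) * f (c - v) :=
        ENNReal.tsum_le_tsum h1
    _ = J p (v - u) * ∑' c : V d, (∑' K : Finset (V d), Pr d (B K ∩ {_ω | c ∈ K})) * f (c - v) := by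
        rw [ENNReal.tsum_mul_left, ENNReal.tsum_comm]
        congr 1
        refine tsum_congr fun c => ?_
        rw [ENNReal.tsum_mul_right]
    _ ≤ _ := by
        refine mul_le_mul_right (ENNReal.tsum_le_tsum fun c => ?_) _
        exact mul_le_mul_left (dia_pr p A y u v c) _

theorem Ew_le_dia (p : ℝ) (wt : V d → ℝ≥0∞) {F : Finset (V d) → V d → ℝ≥0∞} {f : V d → ℝ≥0∞}
    (hF : ∀ K v, F K v ≤ Sg f (K : Set (V d)) v) (A : Del (V d)) (y : V d) :
    Ew p wt F A y ≤ sumA A.verts (fun a => ∑' w : V d, ∑' z : V d, ∑' u : V d, ∑' v : V d,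
      wt (v - y) * t4 p y a u w z * J p (v - u) * conv f (tau p) (z - v)) := by
  have hconv : ∀ z v : V d, conv f (tau p) (z - v) = ∑' c : V d, tau p (c - z) * f (c - v) := by
    intro z v
    unfold conv
    rw [← tsum_sub_right _ v]
    refine tsum_congr fun c => ?_
    have e1 : z - v - (c - v) = -(c - z) := by abel
    rw [e1, tau_ev, mul_comm]
  have h1 : Ew p wt F A y ≤ ∑' u : V d, ∑' v : V d, wt (v - y) * (J p (v - u) * ∑' c : V d,
      (sumA A.verts (fun a => ∑' w : V d, ∑' z : V d, t4 p y a u w z * tau p (c - z))) *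
        f (c - v)) := by
    unfold Ew
    refine ENNReal.tsum_le_tsum fun u => ENNReal.tsum_le_tsum fun v => ?_
    have e1 : ∑' K : Finset (V d), wt (v - y) * ker p A y u v K * F K v =
        wt (v - y) * ∑' K : Finset (V d), ker p A y u v K * F K v := by
      rw [← ENNReal.tsum_mul_left]
      exact tsum_congr fun K => mul_assoc _ _ _
    rw [e1]
    refine mul_le_mul_right ((ker_sum_le p hF A y u v).trans ?_) _
    refine mul_le_mul_right (ENNReal.tsum_le_tsum fun c => ?_) _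
    exact mul_le_mul_left (pr_eprime_conn p u c A y) _
  refine h1.trans (le_of_eq ?_)
  have h2 : ∀ u v : V d, wt (v - y) * (J p (v - u) * ∑' c : V d,
      (sumA A.verts (fun a => ∑' w : V d, ∑' z : V d, t4 p y a u w z * tau p (c - z))) *
        f (c - v)) = ∑' c : V d, ∑' a : A.verts, ∑' w : V d, ∑' z : V d,
        wt (v - y) * t4 p y a u w z * J p (v - u) * (tau p (c - z) * f (c - v)) := by
    intro u v
    rw [← ENNReal.tsum_mul_left, ← ENNReal.tsum_mul_left]
    refine tsum_congr fun c => ?_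
    unfold sumA
    rw [← ENNReal.tsum_mul_right, ← ENNReal.tsum_mul_left, ← ENNReal.tsum_mul_left]
    refine tsum_congr fun a => ?_
    rw [← ENNReal.tsum_mul_right, ← ENNReal.tsum_mul_left, ← ENNReal.tsum_mul_left]
    refine tsum_congr fun w => ?_
    rw [← ENNReal.tsum_mul_right, ← ENNReal.tsum_mul_left, ← ENNReal.tsum_mul_left]
    refine tsum_congr fun z => ?_
    ring
  simp only [h2]
  rw [dia_comm (fun (u v c : V d) (a : A.verts) (w z : V d) =>
    wt (v - y) * t4 p y a u w z * J p (v - u) * (tau p (c - z) * f (c - v)))]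
  unfold sumA
  refine tsum_congr fun a => tsum_congr fun w => tsum_congr fun z => tsum_congr fun u =>
    tsum_congr fun v => ?_
  rw [ENNReal.tsum_mul_left, hconv]

theorem Ecal_le_dia (p : ℝ) {F : Finset (V d) → V d → ℝ≥0∞} {f : V d → ℝ≥0∞}
    (hF : ∀ K v, F K v ≤ Sg f (K : Set (V d)) v) (A : Del (V d)) (y : V d) :
    Ecal p F A y ≤ sumA A.verts (fun a =>
      X1 (tau p) (tau p) (tau p) (tau p) (tau p) (conv (J p) (conv f (tau p))) y a +
      X2 (tau p) (tau p) (tau p) (tau p) (tau p) (conv (J p) (conv f (tau p))) y a +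
      X3 (tau p) (tau p) (tau p) (tau p) (tau p) (conv (J p) (conv f (tau p))) y a +
      X4 (tau p) (tau p) (tau p) (tau p) (tau p) (conv (J p) (conv f (tau p))) y a) := by
  have h1 : Ecal p F A y = Ew p (fun _ => 1) F A y := by
    unfold Ecal Ew
    refine tsum_congr fun u => tsum_congr fun v => tsum_congr fun K => ?_
    rw [one_mul]
  rw [h1]
  refine (Ew_le_dia p (fun _ => 1) hF A y).trans (le_of_eq ?_)
  congr 1
  funext a
  have h2 : ∀ w z u : V d, ∑' v : V d, 1 * t4 p y a u w z * J p (v - u) * conv f (tau p) (z - v) =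
      t4 p y a u w z * conv (J p) (conv f (tau p)) (z - u) := by
    intro w z u
    have e1 : conv (J p) (conv f (tau p)) (z - u) =
        ∑' v : V d, J p (v - u) * conv f (tau p) (z - v) := by
      change ∑' x, J p x * conv f (tau p) (z - u - x) = _
      rw [← tsum_sub_right _ u]
      refine tsum_congr fun v => ?_
      rw [sub_sub_sub_cancel_right]
    rw [e1, ← ENNReal.tsum_mul_left]
    refine tsum_congr fun v => ?_
    rw [one_mul, mul_assoc]
  simp only [h2]
  unfold t4 X1 X2 X3 X4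
  simp only [add_mul, ENNReal.tsum_add]

end Pool.Agent.PB.LE
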