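import Pool.Agent.PB.LE.Cv
import Pool.Agent.PB.BK
import Pool.Agent.PB.P.Act

/-!
# PROJECT PB, LE-Disj: BK for edge-disjoint connections

`pr_disj`: the probability that the pairs `q j` are joined by edge-disjoint `p`-open connections is at
most the product of the two-point functions (`p < 1`).

Proof. `{ω | DisjConn (opn p ω) q} ⊆ dOcc (fun j => {ω | Rch (opn p ω) (q j).1 (q j).2})`: take finite
disjoint edge sets `S j ⊆ opn p ω` (`DisjConn.exists_finite`) and `T j = (S j).toFinset.image Sum.inl`
(a `Finset (Ix d)`, pairwise disjoint because `Sum.inl` is injective). Under `restr (T j) ω` every edge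
of `S j` keeps its label (`restr_of_mem`), so `S j ⊆ opn p (restr (T j) ω)` and `Rch.mono` applies.
(No need for `p < 1` here.) The events are up (`opn` grows when labels decrease: `e ∈ opn p ω`,
`ω' ≤ ω` gives `e ∈ opn p ω'`; `Rch.mono`) and measurable (`(opn_MES p).rch`). `bk_Pr` gives the product,
and `Pr {Rch (opn p ω) x y} = tau p (y - x)` (`tau_shift` in P/Act).
The three corollaries are the case `k = 6, 4, 2` with `Fin.prod_univ_succ`/`Fin.prod_univ_six` etc. and
`tau_neg`/commutativity to bring the arguments in the stated form.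
-/

set_option autoImplicit false
open MeasureTheory Filter Topology
open scoped ENNReal BigOperators

namespace Pool.Agent.PB.LE

variable {d : ℕ}

theorem pr_disj (p : ℝ) {k : ℕ} (q : Fin k → V d × V d) :
    Pr d {ω | DisjConn (opn p ω) q} ≤ ∏ j, tau p ((q j).2 - (q j).1) := by
  classical
  let A : Fin k → Set (Om d) := fun j => {ω | Rch (opn p ω) (q j).1 (q j).2}
  have hsub : {ω : Om d | DisjConn (opn p ω) q} ⊆ dOcc A := by
    intro ω hω
    obtain ⟨S, hS, hfin, hdis, hR⟩ := DisjConn.exists_finite hω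
    refine ⟨fun j => (hfin j).toFinset.image Sum.inl, ?_, ?_⟩
    · intro i j hij
      change Disjoint _ _
      rw [Finset.disjoint_left]
      intro a ha hb
      obtain ⟨e, he, rfl⟩ := Finset.mem_image.1 ha
      obtain ⟨e', he', hee⟩ := Finset.mem_image.1 hb
      have hee' : e' = e := Sum.inl_injective hee
      subst hee'
      rw [Set.Finite.mem_toFinset] at he he'
      exact Set.disjoint_left.1 (hdis hij) he he'
    · intro j
      change Rch (opn p _) (q j).1 (q j).2
      refine (hR j).mono fun e he => ?_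
      have h1 := hS j he
      refine ⟨h1.1, ?_⟩
      rw [restr_of_mem _ (by
        rw [Finset.mem_coe, Finset.mem_image]
        exact ⟨e, (hfin j).mem_toFinset.2 he, rfl⟩)]
      exact h1.2
  have hm : ∀ j, MeasurableSet (A j) := fun j => (opn_MES p).rch _ _
  have hup : ∀ j, IsUp (A j) := by
    intro j ω ω' hle h
    refine Rch.mono (fun e he => ?_) h
    exact ⟨he.1, le_trans (by exact_mod_cast hle (Sum.inl e)) he.2⟩
  refine (measure_mono hsub).trans ((bk_Pr hm hup).trans ?_)
  refine Finset.prod_le_prod' fun j _ => ?_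
  exact (tau_shift p (q j).1 (q j).2).le

theorem pr_disj6 (p : ℝ) (x1 y1 x2 y2 x3 y3 x4 y4 x5 y5 x6 y6 : V d) :
    Pr d {ω | DisjConn (opn p ω) ![(x1, y1), (x2, y2), (x3, y3), (x4, y4), (x5, y5), (x6, y6)]} ≤
      tau p (y1 - x1) * tau p (y2 - x2) * tau p (y3 - x3) * tau p (y4 - x4) * tau p (y5 - x5) *
        tau p (y6 - x6) := by
  refine (pr_disj p _).trans (le_of_eq ?_)
  simp only [Fin.prod_univ_succ, Fin.prod_univ_zero, Matrix.cons_val_zero, Matrix.cons_val_succ,
    mul_one, mul_assoc]

theorem pr_disj4 (p : ℝ) (x1 y1 x2 y2 x3 y3 x4 y4 : V d) :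
    Pr d {ω | DisjConn (opn p ω) ![(x1, y1), (x2, y2), (x3, y3), (x4, y4)]} ≤
      tau p (y1 - x1) * tau p (y2 - x2) * tau p (y3 - x3) * tau p (y4 - x4) := by
  refine (pr_disj p _).trans (le_of_eq ?_)
  simp only [Fin.prod_univ_succ, Fin.prod_univ_zero, Matrix.cons_val_zero, Matrix.cons_val_succ,
    mul_one, mul_assoc]

theorem pr_disj2 (p : ℝ) (x1 y1 x2 y2 : V d) :
    Pr d {ω | DisjConn (opn p ω) ![(x1, y1), (x2, y2)]} ≤ tau p (y1 - x1) * tau p (y2 - x2) := by
  refine (pr_disj p _).trans (le_of_eq ?_)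
  simp only [Fin.prod_univ_succ, Fin.prod_univ_zero, Matrix.cons_val_zero, Matrix.cons_val_succ,
    mul_one, mul_assoc]

theorem tau_ev (p : ℝ) : Ev (tau (d := d) p) := fun x => tau_neg p x

theorem tauw_ev (p : ℝ) : Ev (tauw (d := d) p) := by
  intro x
  unfold tauw n2
  rw [tau_neg]
  simp

end Pool.Agent.PB.LE
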