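import Pool.Agent.PB.LE.DetI
import Pool.Agent.PB.P.Act
import Pool.Agent.PB.P.Loc

/-!
# PROJECT PB, LE-E1Step: exploration of the first step

Statement: `pr_step`, the probability of the step event with `C(O\e, y) = K` factorises.

PLAN. Write `O = opn p ω`, `e = s(u,v)`, `K` a finite set.
(a) If `v ∈ K`: on the event `ClA (ofSet K) O v = ∅` (`ClA_eq_empty`), both sides are 0 (the second
factor on the right is `Pr ∅`). So assume `v ∉ K`. If `u ∉ K`: `EPrime (del1 O e) y u A` gives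
`u ∈ Cl (del1 O e) y = K`, so the left side is 0; on the right `ker`: `EPrime O y u A` and
`Cl (del1 O e) y = K`: `Rch O y u`, by `Rch.del1_or` either `u ∈ K` or (reach `u` or `v` in
`O \ e`) so `u ∈ K` or `v ∈ K`: the event of `ker` is empty: both sides 0. So assume `u ∈ K`.
(b) If `u, v` are not adjacent (`l1 (v - u) ≠ 1`), `s(u,v) ∉ opn p ω` (`mem_opn`, in
`Pool.Agent.PB.Link`; or unfold `opn`, `SimpleGraph.mem_edgeSet`), and `J p (v-u) = 0`: both sides 0.
(c) Main case. The event on the left is (using that on `{Cl (del1 O e) y = K}` the set in `StepE` is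
`K`) the intersection of
   `E1 = {s(u,v) ∈ opn p ω}`, `E2 = {EPrime (del1 O e) y u A ∧ Cl (del1 O e) y = K}`,
   `E3 = {x ∈ ClA (ofSet K) O v}`.
`E1` depends on the label `Sum.inl e` only, `E2` depends on `tI K \ {Sum.inl e}` (the edges touching
`K` other than `e`: `dep_Cl_del1_eq` for the cluster, `eprime_congr` for `E'` on that event),
`E3` depends on labels off `tI K` (`dep_Rch_off`, `rem_ofSet`). `e` touches `K` because `u ∈ K`.
`Pr_inter_indep` (P/Mix) twice: `Pr (E1 ∩ E2 ∩ E3) = Pr E1 * Pr E2 * Pr E3`, and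
`Pr E1 = ofReal p` (`Pr_label_le`, `min p 1 = p`; the edge is a lattice edge).
(d) `Pr E2 = Pr {EPrime O y u A ∧ Cl (del1 O e) y = K}`: the two events are equal by
`eprime_del1_iff` (`u ∈ K`, `v ∉ K`). `J p (v-u) = ofReal p`. Measurability: `MES.eprime`,
`MES.del1`, `MVS.eq_set`, `MES.clA`, `opn_MES`.
-/

set_option autoImplicit false
open MeasureTheory Filter Topology
open scoped ENNReal BigOperators

namespace Pool.Agent.PB.LE

variable {d : ℕ}

private def e1s_E2 (p : ℝ) (A : Del (V d)) (y u v : V d) (K : Set (V d)) : Set (Om d) :=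
  {ω | EPrime (del1 (opn p ω) s(u, v)) y u A ∧ Cl (del1 (opn p ω) s(u, v)) y = K}

private theorem e1s_edge (p : ℝ) {e : Sym2 (V d)} (he : e ∈ (lat d).edgeSet) :
    Pr d {ω | e ∈ opn p ω} = ENNReal.ofReal (min p 1) := by
  have h1 : {ω : Om d | e ∈ opn p ω} = {ω | ((ω (Sum.inl e) : unitInterval) : ℝ) ≤ p} := by
    ext ω; simp [opn, he]
  rw [h1]
  exact Pr_label_le (Sum.inl e) p

private theorem e1s_dep (p : ℝ) (A : Del (V d)) (y u v : V d) (K : Set (V d)) :
    DependsOn (fun ω : Om d => ω ∈ e1s_E2 p A y u v K) (tI K \ {Sum.inl s(u, v)}) := by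
  intro ω ω' h
  have h1 : del1 (opn p ω) s(u, v) ∩ touch K = del1 (opn p ω') s(u, v) ∩ touch K := by
    have h2 := dep_opn (d := d) p (touch K \ {s(u, v)}) (S := tI K \ {Sum.inl s(u, v)})
      (fun f hf => ⟨inl_mem_tI.2 hf.1, fun h => hf.2 (Sum.inl_injective h)⟩) h
    have h3 : ∀ O : Set (Sym2 (V d)), del1 O s(u, v) ∩ touch K = O ∩ (touch K \ {s(u, v)}) := by
      intro O
      ext f
      simp only [del1, Set.mem_inter_iff, Set.mem_sdiff]
      tauto
    rw [h3, h3]
    exact h2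
  have h4 : Cl (del1 (opn p ω) s(u, v)) y = K ↔ Cl (del1 (opn p ω') s(u, v)) y = K :=
    Cl_eq_congr h1
  simp only [eq_iff_iff]
  constructor
  · rintro ⟨a1, a2⟩
    exact ⟨(eprime_congr a2 h1).1 a1, h4.1 a2⟩
  · rintro ⟨a1, a2⟩
    exact ⟨(eprime_congr a2 h1.symm).1 a1, h4.2 a2⟩

theorem pr_step {p : ℝ} (hp0 : 0 ≤ p) (hp1 : p ≤ 1) (A : Del (V d)) (x y u v : V d)
    (K : Finset (V d)) :
    Pr d {ω | StepE (opn p ω) y A x u v ∧ Cl (del1 (opn p ω) s(u, v)) y = (K : Set (V d))} =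
      ker p A y u v K * Pr d {ω | x ∈ ClA (Del.ofSet (K : Set (V d))) (opn p ω) v} := by
  have h3 : ∀ ω : Om d, (StepE (opn p ω) y A x u v ∧ Cl (del1 (opn p ω) s(u, v)) y = (K : Set (V d))) ↔
      (s(u, v) ∈ opn p ω ∧ (EPrime (del1 (opn p ω) s(u, v)) y u A ∧
        Cl (del1 (opn p ω) s(u, v)) y = (K : Set (V d))) ∧
        x ∈ ClA (Del.ofSet (K : Set (V d))) (opn p ω) v) := by
    intro ω
    constructor
    · rintro ⟨⟨a1, a2, a3⟩, a4⟩
      rw [a4] at a3
      exact ⟨a1, ⟨a2, a4⟩, a3⟩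
    · rintro ⟨a1, ⟨a2, a4⟩, a3⟩
      refine ⟨⟨a1, a2, ?_⟩, a4⟩
      rw [a4]
      exact a3
  have hset : {ω : Om d | StepE (opn p ω) y A x u v ∧
      Cl (del1 (opn p ω) s(u, v)) y = (K : Set (V d))} =
      {ω : Om d | s(u, v) ∈ opn p ω} ∩ (e1s_E2 p A y u v K ∩
        {ω : Om d | x ∈ ClA (Del.ofSet (K : Set (V d))) (opn p ω) v}) := by
    ext ω
    exact h3 ω
  by_cases hv : v ∈ K
  · have e3 : {ω : Om d | x ∈ ClA (Del.ofSet (K : Set (V d))) (opn p ω) v} = ∅ := by
      ext ω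
      simp only [Set.mem_ofPred_eq, Set.mem_empty_iff_false, iff_false]
      intro h
      rw [ClA_eq_empty (A := Del.ofSet (K : Set (V d))) (y := v) (by exact hv)] at h
      exact h
    rw [hset, e3, Set.inter_empty, Set.inter_empty, measure_empty, mul_zero]
  by_cases hu : u ∈ K
  swap
  · have e2 : e1s_E2 p A y u v K = ∅ := by
      ext ω
      simp only [e1s_E2, Set.mem_ofPred_eq, Set.mem_empty_iff_false, iff_false]
      rintro ⟨a1, a2⟩
      apply hu
      have a3 : u ∈ Cl (del1 (opn p ω) s(u, v)) y := a1.1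
      rw [a2] at a3
      exact a3
    have e3 : {ω : Om d | EPrime (opn p ω) y u A ∧
        Cl (del1 (opn p ω) s(u, v)) y = (K : Set (V d))} = ∅ := by
      ext ω
      simp only [Set.mem_ofPred_eq, Set.mem_empty_iff_false, iff_false]
      rintro ⟨a1, a2⟩
      have a3 : u ∈ Cl (del1 (opn p ω) s(u, v)) y ∨ v ∈ Cl (del1 (opn p ω) s(u, v)) y := by
        rcases Rch.del1_or (u := u) (v := v) a1.1 with h | h | h
        · exact Or.inl h
        · exact Or.inl h
        · exact Or.inr h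
      rw [a2] at a3
      rcases a3 with h | h
      · exact hu h
      · exact hv h
    unfold ker
    rw [hset, e2, e3, Set.empty_inter, Set.inter_empty, measure_empty, mul_zero, zero_mul]
  by_cases hl : l1 (v - u) = 1
  swap
  · have e1 : {ω : Om d | s(u, v) ∈ opn p ω} = ∅ := by
      ext ω
      simp only [Set.mem_ofPred_eq, Set.mem_empty_iff_false, iff_false]
      intro h
      exact hl h.1
    have hJ : J p (v - u) = 0 := by
      unfold J
      rw [if_neg hl]
    unfold ker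
    rw [hset, e1, Set.empty_inter, measure_empty, hJ, zero_mul, zero_mul]
  have hJ : J p (v - u) = ENNReal.ofReal p := by
    unfold J
    rw [if_pos hl]
  have he : s(u, v) ∈ (lat d).edgeSet := hl
  have hE1 : Pr d {ω : Om d | s(u, v) ∈ opn p ω} = ENNReal.ofReal p := by
    rw [e1s_edge p he, min_eq_left hp1]
  have hE2 : e1s_E2 p A y u v K = {ω : Om d | EPrime (opn p ω) y u A ∧
      Cl (del1 (opn p ω) s(u, v)) y = (K : Set (V d))} := by
    ext ω
    simp only [e1s_E2, Set.mem_ofPred_eq]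
    refine and_congr_left fun a2 => ?_
    apply eprime_del1_iff
    · rw [a2]; exact hu
    · rw [a2]; exact hv
  have m1 : MeasurableSet {ω : Om d | s(u, v) ∈ opn p ω} := opn_MES p _
  have m2 : MeasurableSet (e1s_E2 p A y u v K) :=
    (((opn_MES p).del1 _).eprime y u A).inter ((((opn_MES p).del1 _).cl y).eq_set _)
  have m3 : MeasurableSet {ω : Om d | x ∈ ClA (Del.ofSet (K : Set (V d))) (opn p ω) v} :=
    (opn_MES p).clA _ _ x
  have d2 := e1s_dep p A y u v (K : Set (V d))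
  have d3 : DependsOn (fun ω : Om d => ω ∈ {ω : Om d | x ∈ ClA (Del.ofSet (K : Set (V d)))
      (opn p ω) v}) (tI (K : Set (V d)))ᶜ := dep_Rch_off p v x (K : Set (V d))
  have d1 : DependsOn (fun ω : Om d => ω ∈ {ω : Om d | s(u, v) ∈ opn p ω})
      ({Sum.inl s(u, v)} : Set (Ix d)) := by
    intro ω ω' h
    have := h (Sum.inl s(u, v)) rfl
    simp only [opn, Set.mem_ofPred_eq, this]
  have p23 := Pr_inter_indep (S := tI (K : Set (V d)) \ {Sum.inl s(u, v)})
    (T := (tI (K : Set (V d)))ᶜ)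
    (Set.disjoint_left.2 fun i hi hi' => hi' hi.1) m2 m3 d2 d3
  have d23 : DependsOn (fun ω : Om d => ω ∈ (e1s_E2 p A y u v K ∩
      {ω : Om d | x ∈ ClA (Del.ofSet (K : Set (V d))) (opn p ω) v}))
      ({Sum.inl s(u, v)} : Set (Ix d))ᶜ := by
    intro ω ω' h
    have hin : Sum.inl s(u, v) ∈ tI (K : Set (V d)) := inl_mem_tI.2 (mem_touch_left hu)
    have a1 := d2 (x := ω) (y := ω') fun i hi => h i hi.2
    have a2 := d3 (x := ω) (y := ω') fun i hi => h i fun hc => hi (by
      rw [Set.mem_singleton_iff] at hc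
      rw [hc]
      exact hin)
    simp only [eq_iff_iff] at a1 a2 ⊢
    exact and_congr a1 a2
  have p123 := Pr_inter_indep (S := {Sum.inl s(u, v)}) (T := ({Sum.inl s(u, v)} : Set (Ix d))ᶜ)
    disjoint_compl_right m1 (m2.inter m3) d1 d23
  rw [← Pr_eq] at p23 p123
  rw [hset, p123, p23, hE1, hE2]
  unfold ker
  rw [hJ, mul_assoc]

end Pool.Agent.PB.LE
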