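import Pool.Agent.PB.LE.E1Step
import Pool.Agent.PB.LE.Cv

/-!
# PROJECT PB, LE-E1Sum: one step of the expansion (4.1), an identity in `[0,∞]`

`g_x(A,y) + (ℰ g_x)(A,y) = Ξ_x(A,y) + Σ_u Ξ_u(A,y) (J*τ)(x-u)`, if clusters are finite a.s.

PLAN. Write `O = opn p ω`.
(1) `fin_ae`: `Pr {ω | (Cl (opn p ω) y).Infinite} = 0` (`theta_shift` in P/Act), so the same for
`Cl (del1 (opn p ω) e) y` (subset, `Cl_mono`, `del1_subset`).
(2) `split_tau`: `Pr {x ∈ ClA (ofSet K) O v} + gx p x (ofSet K) v = tau p (x - v)`: the events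
`{x ∈ ClA ..}` (contained in `{Rch O v x}` by `ClA_subset_Cl`) and `{Rch O v x ∧ x ∉ ClA ..}` are
disjoint with union `{Rch O v x}` (`measure_union`/`measure_inter_add_diff`), and
`Pr {Rch O v x} = tau p (x - v)` (`tau_shift` in P/Act).
(3) `gx_eq`: `gx p x A y = Xi p x A y + ∑' u, ∑' v, ∑' K, ker p A y u v K * Pr {x ∈ ClA (ofSet K) O v}`:
by `step_decomp` and `step_not_eprime` the event of `gx` is the disjoint union of the event of `Xi` and
of the union over `(u,v)` of the step events, which are pairwise disjoint (`step_unique`; `measure_iUnion`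
over the countable type `V d × V d`, `ENNReal.tsum_prod`); for fixed `(u,v)` the step event is, up to
the null event of (1), the disjoint union over `K : Finset (V d)` of its intersections with
`{Cl (del1 O s(u,v)) y = K}` (`measure_iUnion`, countable), to which `pr_step` applies.
Measurability: `StepE` is a finite intersection; for the third part use, on the event
`Cl (del1 O e) y = K`, the set `K`; or get the measurability of `{StepE ..}` modulo the null set from
the decomposition over `K` (it is simplest to prove `NullMeasurableSet`, or to prove measurability of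
`{ω | x ∈ ClA (ofSet (Cl (del1 (opn p ω) e) y)) (opn p ω) v}` directly: the random edge set
`{f ∈ O | ∀ z ∈ f, z ∉ Cl (del1 O e) y}` is a `MES`, then `MES.rch`).
(4) `E1`: add `Ecal p (gxF p x) A y = ∑' u v K, ker * gx p x (ofSet K) v` to (3), use (2) termwise:
`... = Xi p x A y + ∑' u v K, ker p A y u v K * tau p (x - v)`, and
`∑' K, ker p A y u v K = J p (v-u) * Xi p u A y` (a.s. finiteness of `Cl (del1 O e) y`, `measure_iUnion`),
finally `∑' v, J p (v-u) * tau p (x-v) = conv (J p) (tau p) (x-u)` (`tsum_sub_right`).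
-/

set_option autoImplicit false
open MeasureTheory Filter Topology
open scoped ENNReal BigOperators

namespace Pool.Agent.PB.LE

variable {d : ℕ}

theorem split_tau (p : ℝ) (x v : V d) (K : Finset (V d)) :
    Pr d {ω | x ∈ ClA (Del.ofSet (K : Set (V d))) (opn p ω) v} + gx p x (Del.ofSet (K : Set (V d))) v =
      tau p (x - v) := by
  have hm : MeasurableSet {ω : Om d | x ∈ ClA (Del.ofSet (K : Set (V d))) (opn p ω) v} :=
    (opn_MES p).clA _ _ _
  rw [← tau_shift, ← measure_inter_add_sdiff {ω : Om d | Rch (opn p ω) v x} hm]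
  congr 2
  ext ω
  exact ⟨fun h => ⟨ClA_subset_Cl _ _ _ h, h⟩, fun h => h.2⟩

private theorem law_del {p : ℝ} (hθ : theta d p = 0) (y : V d) (e : Sym2 (V d))
    (E : Set (Om d)) (hE : MeasurableSet E) :
    Pr d E = ∑' K : Finset (V d),
      Pr d (E ∩ {ω | Cl (del1 (opn p ω) e) y = (K : Set (V d))}) := by
  rw [← measure_iUnion]
  · apply le_antisymm
    · have hsub : E ⊆ (⋃ K : Finset (V d), E ∩ {ω | Cl (del1 (opn p ω) e) y = (K : Set (V d))}) ∪
          {ω | (Cl (opn p ω) y).Infinite} := by
        intro ω hω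
        by_cases hf : (Cl (opn p ω) y).Finite
        · left
          rw [Set.mem_iUnion]
          have hf2 : (Cl (del1 (opn p ω) e) y).Finite := hf.subset (Cl_mono (del1_subset _ _) y)
          exact ⟨hf2.toFinset, hω, by simp⟩
        · right
          exact hf
      calc Pr d E ≤ _ := measure_mono hsub
        _ ≤ _ := measure_union_le _ _
        _ = _ := by
          rw [theta_shift, hθ, add_zero]
    · exact measure_mono (Set.iUnion_subset fun K => Set.inter_subset_left)
  · intro K L hKL
    refine Set.disjoint_left.2 fun ω h1 h2 => hKL ?_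
    have := h1.2.symm.trans h2.2
    exact_mod_cast this
  · intro K
    exact hE.inter ((((opn_MES p).del1 e).cl y).eq_set _)

theorem sum_ker {p : ℝ} (hθ : theta d p = 0) (A : Del (V d)) (y u v : V d) :
    ∑' K : Finset (V d), ker p A y u v K = J p (v - u) * Xi p u A y := by
  unfold ker Xi
  rw [ENNReal.tsum_mul_left, law_del hθ y s(u, v) _ ((opn_MES p).eprime y u A)]
  rfl

private theorem meas_step (p : ℝ) (A : Del (V d)) (x y u v : V d) :
    MeasurableSet {ω : Om d | StepE (opn p ω) y A x u v} := by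
  have h1 : MeasurableSet {ω : Om d | s(u, v) ∈ opn p ω} := opn_MES p _
  have hd := (opn_MES (d := d) p).del1 s(u, v)
  have h2 : MeasurableSet {ω : Om d | EPrime (del1 (opn p ω) s(u, v)) y u A} := hd.eprime y u A
  have hC := hd.cl y
  have hS : MES (fun ω : Om d =>
      (Del.ofSet (Cl (del1 (opn p ω) s(u, v)) y)).rem (opn p ω)) := by
    intro f
    have : {ω : Om d | f ∈ (Del.ofSet (Cl (del1 (opn p ω) s(u, v)) y)).rem (opn p ω)} =
        {ω : Om d | f ∈ opn p ω} ∩ ⋂ z : V d, ⋂ _ : z ∈ f,
          {ω : Om d | z ∈ Cl (del1 (opn p ω) s(u, v)) y}ᶜ := by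
      ext ω
      rw [Set.mem_ofPred_eq, Del.ofSet_rem]
      simp only [Set.mem_ofPred_eq, Set.mem_inter_iff, Set.mem_iInter, Set.mem_compl_iff]
    rw [this]
    exact (opn_MES p f).inter (MeasurableSet.iInter fun z => MeasurableSet.iInter fun _ =>
      (hC z).compl)
  have h3 : MeasurableSet {ω : Om d | x ∈ ClA (Del.ofSet (Cl (del1 (opn p ω) s(u, v)) y))
      (opn p ω) v} := by
    have : {ω : Om d | x ∈ ClA (Del.ofSet (Cl (del1 (opn p ω) s(u, v)) y)) (opn p ω) v} =
        {ω : Om d | v ∈ Cl (del1 (opn p ω) s(u, v)) y}ᶜ ∩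
        {ω : Om d | Rch ((Del.ofSet (Cl (del1 (opn p ω) s(u, v)) y)).rem (opn p ω)) v x} := by
      ext ω
      exact Iff.rfl
    rw [this]
    exact (hC v).compl.inter (hS.rch v x)
  exact h1.inter (h2.inter h3)

theorem gx_eq {p : ℝ} (hp0 : 0 ≤ p) (hp1 : p ≤ 1) (hθ : theta d p = 0) (A : Del (V d))
    (x y : V d) :
    gx p x A y = Xi p x A y + ∑' u : V d, ∑' v : V d, ∑' K : Finset (V d),
      ker p A y u v K * Pr d {ω | x ∈ ClA (Del.ofSet (K : Set (V d))) (opn p ω) v} := by
  have h1 : {ω : Om d | Rch (opn p ω) y x ∧ x ∉ ClA A (opn p ω) y} =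
      {ω : Om d | EPrime (opn p ω) y x A} ∪
        ⋃ q : V d × V d, {ω : Om d | StepE (opn p ω) y A x q.1 q.2} := by
    ext ω
    rw [Set.mem_ofPred_eq, step_decomp]
    simp only [Set.mem_union, Set.mem_ofPred_eq, Set.mem_iUnion, Prod.exists]
  have h2 : ∀ u v : V d, Pr d {ω : Om d | StepE (opn p ω) y A x u v} = ∑' K : Finset (V d),
      ker p A y u v K * Pr d {ω | x ∈ ClA (Del.ofSet (K : Set (V d))) (opn p ω) v} := by
    intro u v
    rw [law_del hθ y s(u, v) _ (meas_step p A x y u v)]
    refine tsum_congr fun K => ?_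
    rw [← pr_step hp0 hp1]
    rfl
  have hmU : MeasurableSet (⋃ q : V d × V d, {ω : Om d | StepE (opn p ω) y A x q.1 q.2}) :=
    MeasurableSet.iUnion fun q => meas_step p A x y q.1 q.2
  unfold gx Xi
  rw [h1, measure_union _ hmU, measure_iUnion]
  · congr 1
    rw [← ENNReal.tsum_prod]
    exact tsum_congr fun q => h2 q.1 q.2
  · intro q r hqr
    refine Set.disjoint_left.2 fun ω ha hb => hqr ?_
    have := step_unique (O := opn p ω) ha hb
    exact Prod.ext this.1 this.2
  · intro q
    exact meas_step p A x y q.1 q.2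
  · refine Set.disjoint_left.2 fun ω ha hb => ?_
    rw [Set.mem_iUnion] at hb
    obtain ⟨q, hq⟩ := hb
    exact step_not_eprime hq ha

theorem E1 {p : ℝ} (hp0 : 0 ≤ p) (hp1 : p ≤ 1) (hθ : theta d p = 0) (A : Del (V d))
    (x y : V d) :
    gx p x A y + Ecal p (gxF p x) A y =
      Xi p x A y + ∑' u : V d, Xi p u A y * conv (J p) (tau p) (x - u) := by
  rw [gx_eq hp0 hp1 hθ A x y, add_assoc]
  congr 1
  unfold Ecal
  rw [← ENNReal.tsum_add]
  refine tsum_congr fun u => ?_
  rw [← ENNReal.tsum_add]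
  have h1 : ∀ v : V d, ((∑' K : Finset (V d),
      ker p A y u v K * Pr d {ω | x ∈ ClA (Del.ofSet (K : Set (V d))) (opn p ω) v}) +
      ∑' K : Finset (V d), ker p A y u v K * gxF p x K v) =
      Xi p u A y * (J p (v - u) * tau p (x - u - (v - u))) := by
    intro v
    rw [← ENNReal.tsum_add]
    have h2 : ∀ K : Finset (V d), (ker p A y u v K *
        Pr d {ω | x ∈ ClA (Del.ofSet (K : Set (V d))) (opn p ω) v} +
        ker p A y u v K * gxF p x K v) = ker p A y u v K * tau p (x - v) := by
      intro K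
      rw [← mul_add]
      congr 1
      exact split_tau p x v K
    simp_rw [h2]
    rw [ENNReal.tsum_mul_right, sum_ker hθ, sub_sub_sub_cancel_right]
    ring
  simp_rw [h1]
  rw [ENNReal.tsum_mul_left, tsum_sub_right (fun v => J p v * tau p (x - u - v)) u]
  rfl

end Pool.Agent.PB.LE
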