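import Pool.Agent.PB.LE.Cv

/-!
# PROJECT PB, LE-XA: the diagram of type 1 as a convolution, pure sums in `[0,∞]`

PLAN. `b' ξ := ∑' w, ∑' u, f2 w * f3 (ξ - w) * f4 (u - w) * f5 (u - ξ) * g (-u)`.
Equality: in `X1 .. y a` bring the sum over `z` outside (`ENNReal.tsum_comm`), substitute
`w ↦ w + z`, `u ↦ u + z` (`tsum_add_right`): the term becomes
`f1 (z - y) * [f2 w * f3 (a - z - w) * f4 (u - w) * f5 (u - (a - z)) * g (-u)]`, i.e.
`∑' z, f1 (z - y) * b' (a - z)`, and `conv f1 b' (a - y) = ∑' t, f1 t * b' (a - y - t)`, `t = z - y`.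
Norm: `nrm b' = ∑' ξ, ...`; sum over `ξ` first: `∑' ξ, f3 (ξ - w) * f5 (u - ξ) = conv f3 f5 (u - w)`
(substitute `ξ = t + w`). Then `∑' w, ∑' u, f2 w * f4 (u - w) * conv f3 f5 (u - w) * g (-u)`;
substitute `u = s + w`: `∑' s, f4 s * conv f3 f5 s * ∑' w, f2 w * g (-s - w)`
`= ∑' s, f4 s * conv f3 f5 s * conv f2 g (-s) ≤ (∑' s, f4 s * conv f3 f5 s) * supn (conv f2 g)` and
`∑' s, f4 s * conv f3 f5 s = conv f4 (conv f3 f5) 0` since `f4` is even (`conv_zero_ev` after
`conv_comm`).
-/

set_option autoImplicit false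
open scoped ENNReal BigOperators

namespace Pool.Agent.PB.LE

variable {d : ℕ}

private theorem conv_shift (f g : V d → ℝ≥0∞) (w u : V d) :
    ∑' ξ : V d, f (ξ - w) * g (u - ξ) = conv f g (u - w) := by
  unfold conv
  rw [← tsum_add_right (fun ξ => f (ξ - w) * g (u - ξ)) w]
  refine tsum_congr fun t => ?_
  rw [add_sub_cancel_right]
  congr 2
  abel

theorem X1_le (f1 f2 f3 f4 f5 g : V d → ℝ≥0∞) (h4 : Ev f4) :
    ∃ b' : V d → ℝ≥0∞, (∀ y a, X1 f1 f2 f3 f4 f5 g y a = conv f1 b' (a - y)) ∧
      nrm b' ≤ conv f4 (conv f3 f5) 0 * supn (conv f2 g) := by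
  refine ⟨fun ξ => ∑' w : V d, ∑' u : V d, f2 w * f3 (ξ - w) * f4 (u - w) * f5 (u - ξ) * g (-u),
    ?_, ?_⟩
  · intro y a
    unfold X1
    rw [ENNReal.tsum_comm]
    rw [← conv_shift f1 _ y a]
    refine tsum_congr fun z => ?_
    rw [← ENNReal.tsum_mul_left]
    rw [← tsum_add_right (fun w => ∑' u : V d,
      f1 (z - y) * f2 (w - z) * f3 (a - w) * f4 (u - w) * f5 (u - a) * g (z - u)) z]
    refine tsum_congr fun w => ?_
    rw [← ENNReal.tsum_mul_left]
    rw [← tsum_add_right (fun u =>
      f1 (z - y) * f2 (w + z - z) * f3 (a - (w + z)) * f4 (u - (w + z)) * f5 (u - a) *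
        g (z - u)) z]
    refine tsum_congr fun u => ?_
    have e1 : w + z - z = w := by abel
    have e2 : a - (w + z) = a - z - w := by abel
    have e3 : u + z - (w + z) = u - w := by abel
    have e4 : u + z - a = u - (a - z) := by abel
    have e5 : z - (u + z) = -u := by abel
    rw [e1, e2, e3, e4, e5]
    ring
  · calc nrm (fun ξ => ∑' w : V d, ∑' u : V d,
          f2 w * f3 (ξ - w) * f4 (u - w) * f5 (u - ξ) * g (-u))
        = ∑' w : V d, ∑' u : V d, f2 w * (f4 (u - w) * conv f3 f5 (u - w)) * g (-u) := by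
          unfold nrm
          rw [ENNReal.tsum_comm]
          refine tsum_congr fun w => ?_
          rw [ENNReal.tsum_comm]
          refine tsum_congr fun u => ?_
          rw [← conv_shift f3 f5 w u, ← ENNReal.tsum_mul_left, ← ENNReal.tsum_mul_left,
            ← ENNReal.tsum_mul_right]
          refine tsum_congr fun ξ => ?_
          ring
      _ = ∑' w : V d, ∑' s : V d, f2 w * (f4 s * conv f3 f5 s) * g (-s - w) := by
          refine tsum_congr fun w => ?_
          rw [← tsum_add_right (fun u => f2 w * (f4 (u - w) * conv f3 f5 (u - w)) * g (-u)) w]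
          refine tsum_congr fun s => ?_
          have e1 : s + w - w = s := by abel
          have e2 : -(s + w) = -s - w := by abel
          rw [e1, e2]
      _ = ∑' s : V d, (f4 s * conv f3 f5 s) * conv f2 g (-s) := by
          rw [ENNReal.tsum_comm]
          refine tsum_congr fun s => ?_
          have e1 : conv f2 g (-s) = ∑' w : V d, f2 w * g (-s - w) := rfl
          rw [e1, ← ENNReal.tsum_mul_left]
          refine tsum_congr fun w => ?_
          ring
      _ ≤ ∑' s : V d, (f4 s * conv f3 f5 s) * supn (conv f2 g) :=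
          ENNReal.tsum_le_tsum fun s => mul_le_mul' le_rfl (le_supn _ _)
      _ = conv f4 (conv f3 f5) 0 * supn (conv f2 g) := by
          rw [ENNReal.tsum_mul_right, conv_comm f4, conv_zero_ev _ h4]
          congr 1
          refine tsum_congr fun s => ?_
          ring

end Pool.Agent.PB.LE
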