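import Pool.Agent.PB.LE.Cv

/-!
# PROJECT PB, LE-XB: the diagram of type 2 as a convolution, pure sums in `[0,∞]`

PLAN. `b' ξ := ∑' z, ∑' u, f2 z * f3 (ξ - z) * f4 u * f5 (u - ξ) * g (z - u)`.
Equality: substitute `z ↦ z + w`, `u ↦ u + w` (`tsum_add_right`) in `X2 .. y a`: the term becomes
`f1 (w - y) * [f2 z * f3 (a - w - z) * f4 u * f5 (u - (a - w)) * g (z - u)]`, so
`X2 = ∑' w, f1 (w - y) * b' (a - w) = conv f1 b' (a - y)` (`t = w - y`, `tsum_sub_right`).
Norm: sum over `ξ` first: `∑' ξ, f3 (ξ - z) * f5 (u - ξ) = conv f3 f5 (u - z)`. Bound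
`g (z - u) ≤ supn g` (`le_supn`); remaining `∑' z, ∑' u, f2 z * f4 u * conv f3 f5 (u - z)`
`= ∑' u, f4 u * conv f2 (conv f3 f5) u = conv (conv f2 (conv f3 f5)) f4 0` (`conv_zero_ev`, `f4` even).
-/

set_option autoImplicit false
open scoped ENNReal BigOperators

namespace Pool.Agent.PB.LE

variable {d : ℕ}

theorem X2_le (f1 f2 f3 f4 f5 g : V d → ℝ≥0∞) (h4 : Ev f4) :
    ∃ b' : V d → ℝ≥0∞, (∀ y a, X2 f1 f2 f3 f4 f5 g y a = conv f1 b' (a - y)) ∧
      nrm b' ≤ conv (conv f2 (conv f3 f5)) f4 0 * supn g := by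
  refine ⟨fun ξ => ∑' z, ∑' u, f2 z * f3 (ξ - z) * f4 u * f5 (u - ξ) * g (z - u), ?_, ?_⟩
  · intro y a
    unfold X2 conv
    rw [← tsum_sub_right (fun t => f1 t * ∑' z, ∑' u,
      f2 z * f3 (a - y - t - z) * f4 u * f5 (u - (a - y - t)) * g (z - u)) y]
    refine tsum_congr fun w => ?_
    rw [← tsum_add_right (fun z => ∑' u,
      f1 (w - y) * f2 (z - w) * f3 (a - z) * f4 (u - w) * f5 (u - a) * g (z - u)) w,
      ← ENNReal.tsum_mul_left]
    refine tsum_congr fun z => ?_
    rw [← tsum_add_right (fun u =>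
      f1 (w - y) * f2 (z + w - w) * f3 (a - (z + w)) * f4 (u - w) * f5 (u - a) *
        g (z + w - u)) w, ← ENNReal.tsum_mul_left]
    refine tsum_congr fun u => ?_
    have e1 : z + w - w = z := by abel
    have e2 : u + w - w = u := by abel
    have e3 : a - (z + w) = a - y - (w - y) - z := by abel
    have e4 : u + w - a = u - (a - y - (w - y)) := by abel
    have e5 : z + w - (u + w) = z - u := by abel
    rw [e1, e2, e3, e4, e5]
    ring
  · unfold nrm
    calc ∑' ξ, ∑' z, ∑' u, f2 z * f3 (ξ - z) * f4 u * f5 (u - ξ) * g (z - u)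
        = ∑' z, ∑' u, ∑' ξ, f2 z * f3 (ξ - z) * f4 u * f5 (u - ξ) * g (z - u) := by
          rw [ENNReal.tsum_comm]
          refine tsum_congr fun z => ?_
          rw [ENNReal.tsum_comm]
      _ ≤ ∑' z, ∑' u, f2 z * f4 u * conv f3 f5 (u - z) * supn g := by
          refine ENNReal.tsum_le_tsum fun z => ENNReal.tsum_le_tsum fun u => ?_
          have h1 : ∑' ξ, f2 z * f3 (ξ - z) * f4 u * f5 (u - ξ) * g (z - u) =
              f2 z * f4 u * conv f3 f5 (u - z) * g (z - u) := by
            unfold conv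
            rw [← tsum_sub_right (fun ξ => f3 ξ * f5 (u - z - ξ)) z, ← ENNReal.tsum_mul_left,
              ← ENNReal.tsum_mul_right]
            refine tsum_congr fun ξ => ?_
            have e1 : u - z - (ξ - z) = u - ξ := by abel
            rw [e1]
            ring
          rw [h1]
          exact mul_le_mul' le_rfl (le_supn g _)
      _ = conv (conv f2 (conv f3 f5)) f4 0 * supn g := by
          rw [conv_zero_ev _ h4, ENNReal.tsum_comm, ← ENNReal.tsum_mul_right]
          refine tsum_congr fun u => ?_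
          rw [ENNReal.tsum_mul_right]
          congr 1
          have h2 : conv f2 (conv f3 f5) u = ∑' z, f2 z * conv f3 f5 (u - z) := rfl
          rw [h2, ← ENNReal.tsum_mul_right]
          refine tsum_congr fun z => ?_
          ring

end Pool.Agent.PB.LE
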