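import Pool.Agent.PB.LE.Cv

/-!
# PROJECT PB, LE-XC: the diagrams of types 3 and 4 as convolutions, pure sums in `[0,∞]`

PLAN. Type 3: `b' ξ := f2 ξ * ∑' z, ∑' u, f3 z * f4 (u - z) * f5 (u - ξ) * g (z - u)`.
Type 4: `b' ξ := f2 ξ * ∑' z, ∑' u, f3 u * f4 (z - u) * f5 (ξ - z) * g (z - u)`.
Equality: substitute `z ↦ z + w`, `u ↦ u + w` (`tsum_add_right`):
`X = ∑' w, f1 (w - y) * b' (a - w) = conv f1 b' (a - y)` (`t = w - y`).
Norm: bound `g ≤ supn g` (`le_supn`). Type 3: `∑' ξ, f2 ξ * f5 (u - ξ) = conv f2 f5 u`, then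
`∑' z, f3 z * f4 (u - z) = conv f3 f4 u`, total `∑' u, conv f3 f4 u * conv f2 f5 u`
`= conv (conv f3 f4) (conv f2 f5) 0` (`conv_zero_ev` with `Ev.conv h2 h5`).
Type 4: `∑' ξ, f2 ξ * f5 (ξ - z) = conv f2 f5 z` (`f5` even: `f5 (ξ - z) = f5 (z - ξ)`), then
`∑' u, f3 u * f4 (z - u) = conv f3 f4 z`, same conclusion.
-/

set_option autoImplicit false
open scoped ENNReal BigOperators

namespace Pool.Agent.PB.LE

variable {d : ℕ}

/-- a sum over a pair, bounded after replacing `g` by its supremum -/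
private theorem tail_le (F G H g : V d → ℝ≥0∞) (K : V d → V d → ℝ≥0∞)
    (hK : ∀ z u, K z u ≤ F z * G (u - z) * H u * supn g) :
    ∑' z : V d, ∑' u : V d, K z u ≤ (∑' u : V d, conv F G u * H u) * supn g := by
  calc ∑' z : V d, ∑' u : V d, K z u
      ≤ ∑' z : V d, ∑' u : V d, F z * G (u - z) * H u * supn g :=
        ENNReal.tsum_le_tsum fun z => ENNReal.tsum_le_tsum fun u => hK z u
    _ = ∑' u : V d, ∑' z : V d, F z * G (u - z) * H u * supn g := ENNReal.tsum_comm
    _ = (∑' u : V d, conv F G u * H u) * supn g := by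
        rw [← ENNReal.tsum_mul_right]
        refine tsum_congr fun u => ?_
        unfold conv
        rw [← ENNReal.tsum_mul_right, ← ENNReal.tsum_mul_right]

theorem X3_le (f1 f2 f3 f4 f5 g : V d → ℝ≥0∞) (h2 : Ev f2) (h5 : Ev f5) :
    ∃ b' : V d → ℝ≥0∞, (∀ y a, X3 f1 f2 f3 f4 f5 g y a = conv f1 b' (a - y)) ∧
      nrm b' ≤ conv (conv f3 f4) (conv f2 f5) 0 * supn g := by
  refine ⟨fun ξ => f2 ξ * ∑' z : V d, ∑' u : V d, f3 z * f4 (u - z) * f5 (u - ξ) * g (z - u),
    fun y a => ?_, ?_⟩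
  · unfold X3 conv
    rw [← tsum_sub_right (fun t => f1 t * (f2 (a - y - t) * ∑' z : V d, ∑' u : V d,
      f3 z * f4 (u - z) * f5 (u - (a - y - t)) * g (z - u))) y]
    refine tsum_congr fun w => ?_
    have e1 : a - y - (w - y) = a - w := by abel
    rw [e1, ← ENNReal.tsum_mul_left, ← ENNReal.tsum_mul_left,
      ← tsum_add_right (fun z => ∑' u : V d,
        f1 (w - y) * f2 (a - w) * f3 (z - w) * f4 (u - z) * f5 (u - a) * g (z - u)) w]
    refine tsum_congr fun z => ?_
    rw [← ENNReal.tsum_mul_left, ← ENNReal.tsum_mul_left,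
      ← tsum_add_right (fun u => f1 (w - y) * f2 (a - w) * f3 (z + w - w) * f4 (u - (z + w)) *
        f5 (u - a) * g (z + w - u)) w]
    refine tsum_congr fun u => ?_
    have e2 : z + w - w = z := by abel
    have e3 : u + w - (z + w) = u - z := by abel
    have e4 : u + w - a = u - (a - w) := by abel
    have e5 : z + w - (u + w) = z - u := by abel
    rw [e2, e3, e4, e5]
    ring
  · rw [conv_zero_ev _ (h2.conv h5)]
    unfold nrm
    calc ∑' ξ : V d, f2 ξ * ∑' z : V d, ∑' u : V d, f3 z * f4 (u - z) * f5 (u - ξ) * g (z - u)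
        = ∑' z : V d, ∑' u : V d, ∑' ξ : V d,
            f2 ξ * (f3 z * f4 (u - z) * f5 (u - ξ) * g (z - u)) := by
          simp_rw [← ENNReal.tsum_mul_left]
          rw [ENNReal.tsum_comm]
          refine tsum_congr fun z => ?_
          rw [ENNReal.tsum_comm]
      _ ≤ _ := by
          refine tail_le f3 f4 (conv f2 f5) g _ fun z u => ?_
          unfold conv
          rw [← ENNReal.tsum_mul_left, ← ENNReal.tsum_mul_right]
          refine ENNReal.tsum_le_tsum fun ξ => ?_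
          calc f2 ξ * (f3 z * f4 (u - z) * f5 (u - ξ) * g (z - u))
              = f3 z * f4 (u - z) * (f2 ξ * f5 (u - ξ)) * g (z - u) := by ring
            _ ≤ _ := mul_le_mul' le_rfl (le_supn g _)

theorem X4_le (f1 f2 f3 f4 f5 g : V d → ℝ≥0∞) (h2 : Ev f2) (h5 : Ev f5) :
    ∃ b' : V d → ℝ≥0∞, (∀ y a, X4 f1 f2 f3 f4 f5 g y a = conv f1 b' (a - y)) ∧
      nrm b' ≤ conv (conv f3 f4) (conv f2 f5) 0 * supn g := by
  refine ⟨fun ξ => f2 ξ * ∑' z : V d, ∑' u : V d, f3 u * f4 (z - u) * f5 (ξ - z) * g (z - u),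
    fun y a => ?_, ?_⟩
  · unfold X4 conv
    rw [← tsum_sub_right (fun t => f1 t * (f2 (a - y - t) * ∑' z : V d, ∑' u : V d,
      f3 u * f4 (z - u) * f5 (a - y - t - z) * g (z - u))) y]
    refine tsum_congr fun w => ?_
    have e1 : a - y - (w - y) = a - w := by abel
    rw [e1, ← ENNReal.tsum_mul_left, ← ENNReal.tsum_mul_left,
      ← tsum_add_right (fun z => ∑' u : V d,
        f1 (w - y) * f2 (a - w) * f3 (u - w) * f4 (z - u) * f5 (a - z) * g (z - u)) w]
    refine tsum_congr fun z => ?_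
    rw [← ENNReal.tsum_mul_left, ← ENNReal.tsum_mul_left,
      ← tsum_add_right (fun u => f1 (w - y) * f2 (a - w) * f3 (u - w) * f4 (z + w - u) *
        f5 (a - (z + w)) * g (z + w - u)) w]
    refine tsum_congr fun u => ?_
    have e2 : u + w - w = u := by abel
    have e3 : z + w - (u + w) = z - u := by abel
    have e4 : a - (z + w) = a - w - z := by abel
    rw [e2, e3, e4]
    ring
  · rw [conv_zero_ev _ (h2.conv h5)]
    unfold nrm
    calc ∑' ξ : V d, f2 ξ * ∑' z : V d, ∑' u : V d, f3 u * f4 (z - u) * f5 (ξ - z) * g (z - u)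
        = ∑' u : V d, ∑' z : V d, ∑' ξ : V d,
            f2 ξ * (f3 u * f4 (z - u) * f5 (ξ - z) * g (z - u)) := by
          simp_rw [← ENNReal.tsum_mul_left]
          rw [ENNReal.tsum_comm]
          rw [show (∑' u : V d, ∑' z : V d, ∑' ξ : V d,
              f2 ξ * (f3 u * f4 (z - u) * f5 (ξ - z) * g (z - u))) =
            ∑' z : V d, ∑' u : V d, ∑' ξ : V d,
              f2 ξ * (f3 u * f4 (z - u) * f5 (ξ - z) * g (z - u)) from ENNReal.tsum_comm]
          refine tsum_congr fun z => ?_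
          rw [ENNReal.tsum_comm]
      _ ≤ _ := by
          refine tail_le f3 f4 (conv f2 f5) g _ fun u z => ?_
          unfold conv
          rw [← ENNReal.tsum_mul_left, ← ENNReal.tsum_mul_right]
          refine ENNReal.tsum_le_tsum fun ξ => ?_
          have e : f5 (ξ - z) = f5 (z - ξ) := by rw [← h5 (z - ξ), neg_sub]
          calc f2 ξ * (f3 u * f4 (z - u) * f5 (ξ - z) * g (z - u))
              = f3 u * f4 (z - u) * (f2 ξ * f5 (z - ξ)) * g (z - u) := by rw [e]; ring
            _ ≤ _ := mul_le_mul' le_rfl (le_supn g _)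

end Pool.Agent.PB.LE
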