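import Pool.Agent.PB.LE.Dia
import Pool.Agent.PB.LE.XA
import Pool.Agent.PB.LE.XB
import Pool.Agent.PB.LE.XC
import Pool.Agent.PB.LE.TauF
import Pool.Agent.PB.LE.Base
import Pool.Agent.PB.P.Conv

/-!
# PROJECT PB, LE-EcalB: the diagram lemma 4.2 with arbitrary constants, and the restricted kernel

`ecal_le_B`: 4.2 for the unweighted kernel with constants `B ≥ τ^{*4}(0)` and `s ≥ sup`;
`ecal_one_le`: `(ℰ 1)(A,y)`; `ER_le_Ecal`: the kernel of Section 6.1 is at most `ℰ`.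
-/

set_option autoImplicit false
open MeasureTheory Filter Topology
open scoped ENNReal BigOperators

namespace Pool.Agent.PB.LE

variable {d : ℕ}

theorem B3_le_B4 (p : ℝ) :
    conv (tau (d := d) p) (conv (tau p) (tau p)) 0 ≤ cpow (tau (d := d) p) 4 0 := by
  rw [← cpow_three]
  exact PB.cpow_le_cpow (tz p) (by norm_num) 0

theorem ecal_le_B (p : ℝ) {σ b0 : V d → ℝ≥0∞} {B s : ℝ≥0∞}
    (hB : cpow (tau (d := d) p) 4 0 ≤ B)
    (h2 : supn (conv (J p) (conv (tau p) σ)) ≤ s)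
    (h3 : supn (conv (J p) (conv (tau p) (conv (tau p) σ))) ≤ s) :
    ∃ b' : V d → ℝ≥0∞, nrm b' ≤ 4 * B * s * nrm b0 ∧
      ∀ F : Finset (V d) → V d → ℝ≥0∞, (∀ K v, F K v ≤ Sg (conv σ b0) (K : Set (V d)) v) →
        ∀ (A : Del (V d)) (y : V d), Ecal p F A y ≤ Sg (conv (tau p) b') A.verts y := by
  obtain ⟨g, hg⟩ : ∃ g, g = conv (J (d := d) p) (conv (conv σ b0) (tau p)) := ⟨_, rfl⟩
  have he : Ev (tau (d := d) p) := tau_ev p
  have hs0 : supn g ≤ s * nrm b0 := by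
    rw [hg]; exact (supn_g p σ b0).trans (mul_le_mul' h2 le_rfl)
  have hs1 : supn (conv (tau p) g) ≤ s * nrm b0 := by
    rw [hg]; exact (supn_conv_g p (tau p) σ b0).trans (mul_le_mul' h3 le_rfl)
  have hB3 : conv (tau (d := d) p) (conv (tau p) (tau p)) 0 ≤ B := (B3_le_B4 p).trans hB
  have hB4 : conv (conv (tau (d := d) p) (conv (tau p) (tau p))) (tau p) 0 ≤ B := by
    rw [conv_comm, ← cpow_four]; exact hB
  have hB22 : conv (conv (tau (d := d) p) (tau p)) (conv (tau p) (tau p)) 0 ≤ B := by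
    rw [conv_assoc, ← cpow_four]; exact hB
  obtain ⟨b1, e1, n1⟩ := X1_le (tau p) (tau p) (tau p) (tau p) (tau p) g he
  obtain ⟨b2, e2, n2⟩ := X2_le (tau p) (tau p) (tau p) (tau p) (tau p) g he
  obtain ⟨b3, e3, n3⟩ := X3_le (tau p) (tau p) (tau p) (tau p) (tau p) g he he
  obtain ⟨b4, e4, n4⟩ := X4_le (tau p) (tau p) (tau p) (tau p) (tau p) g he he
  have m1 : nrm b1 ≤ B * (s * nrm b0) := n1.trans (mul_le_mul' hB3 hs1)
  have m2 : nrm b2 ≤ B * (s * nrm b0) := n2.trans (mul_le_mul' hB4 hs0)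
  have m3 : nrm b3 ≤ B * (s * nrm b0) := n3.trans (mul_le_mul' hB22 hs0)
  have m4 : nrm b4 ≤ B * (s * nrm b0) := n4.trans (mul_le_mul' hB22 hs0)
  refine ⟨fun x => b1 x + b2 x + b3 x + b4 x, ?_, fun F hF A y => ?_⟩
  · rw [nrm_add (fun x => b1 x + b2 x + b3 x), nrm_add (fun x => b1 x + b2 x), nrm_add]
    calc nrm b1 + nrm b2 + nrm b3 + nrm b4
        ≤ B * (s * nrm b0) + B * (s * nrm b0) + B * (s * nrm b0) + B * (s * nrm b0) :=
          add_le_add (add_le_add (add_le_add m1 m2) m3) m4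
      _ = 4 * B * s * nrm b0 := by ring
  · refine (Ecal_le_dia p hF A y).trans ?_
    rw [← hg]
    refine sumA_mono _ fun a => ?_
    rw [conv_add_right (tau p) (fun x => b1 x + b2 x + b3 x),
      conv_add_right (tau p) (fun x => b1 x + b2 x), conv_add_right,
      ← e1 y a, ← e2 y a, ← e3 y a, ← e4 y a]

theorem sum_Xi_le_B (p : ℝ) :
    ∃ β0 : V d → ℝ≥0∞, nrm β0 ≤ cpow (tau (d := d) p) 4 0 ∧ ∀ (A : Del (V d)) (y : V d),
      ∑' x : V d, Xi p x A y ≤ Sg (conv (tau p) β0) A.verts y := by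
  refine ⟨fun ξ => tau p ξ * conv (tau p) (tau p) ξ, ?_, ?_⟩
  · unfold nrm
    rw [← conv_zero_ev _ ((tau_ev p).conv (tau_ev p))]
    exact B3_le_B4 p
  · intro A y
    rw [← sum_four (tau p) (tau p) (tau p) (tau_ev p) A.verts y]
    exact ENNReal.tsum_le_tsum fun x => Xi_le p x A y

theorem sum_ker_le (p : ℝ) (A : Del (V d)) (y u v : V d) :
    ∑' K : Finset (V d), ker p A y u v K ≤ J p (v - u) * Xi p u A y := by
  unfold ker Xi
  rw [ENNReal.tsum_mul_left]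
  refine mul_le_mul' le_rfl ?_
  have hM : ∀ K : Finset (V d), MeasurableSet {ω : Om d | EPrime (opn p ω) y u A ∧
      Cl (del1 (opn p ω) s(u, v)) y = (K : Set (V d))} := fun K =>
    ((opn_MES p).eprime y u A).inter ((((opn_MES p).del1 s(u, v)).cl y).eq_set _)
  rw [← measure_iUnion _ hM]
  · refine measure_mono ?_
    intro ω hω
    obtain ⟨K, hK⟩ := Set.mem_iUnion.1 hω
    exact hK.1
  · intro K K' hne
    rw [Function.onFun, Set.disjoint_left]
    rintro ω ⟨_, h1⟩ ⟨_, h2⟩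
    exact hne (Finset.coe_injective (h1.symm.trans h2))

/-- `(ℰ 1)(A,y) ≤ Σ_{a ∈ V(A)} (τ * b)(a - y)`, `‖b‖ ≤ ‖J‖ B_4` -/
theorem ecal_one_le (p : ℝ) :
    ∃ b1 : V d → ℝ≥0∞, nrm b1 ≤ nrm (J (d := d) p) * cpow (tau (d := d) p) 4 0 ∧
      ∀ (A : Del (V d)) (y : V d),
        Ecal p (fun _ _ => 1) A y ≤ Sg (conv (tau p) b1) A.verts y := by
  obtain ⟨β0, h1, h2⟩ := sum_Xi_le_B (d := d) p
  refine ⟨fun x => nrm (J (d := d) p) * β0 x, ?_, fun A y => ?_⟩
  · rw [nrm_mul_left]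
    exact mul_le_mul' le_rfl h1
  · have h3 : Sg (conv (tau p) fun x => nrm (J (d := d) p) * β0 x) A.verts y =
        nrm (J (d := d) p) * Sg (conv (tau p) β0) A.verts y := by
      rw [← Sg_mul_left]
      congr 1
      funext x
      rw [conv_mul_right]
    rw [h3]
    calc Ecal p (fun _ _ => 1) A y
        = ∑' u : V d, ∑' v : V d, ∑' K : Finset (V d), ker p A y u v K := by
          unfold Ecal
          simp only [mul_one]
      _ ≤ ∑' u : V d, ∑' v : V d, J p (v - u) * Xi p u A y :=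
          ENNReal.tsum_le_tsum fun u => ENNReal.tsum_le_tsum fun v => sum_ker_le p A y u v
      _ = ∑' u : V d, nrm (J (d := d) p) * Xi p u A y := by
          refine tsum_congr fun u => ?_
          rw [ENNReal.tsum_mul_right, tsum_sub_right]
          rfl
      _ = nrm (J (d := d) p) * ∑' u : V d, Xi p u A y := ENNReal.tsum_mul_left
      _ ≤ _ := mul_le_mul' le_rfl (h2 A y)

/-- the restricted kernel of Section 6.1 is at most the kernel of Section 4 -/
theorem kerR_le_ker (p : ℝ) (A : Del (V d)) (y u v : V d) (K : Finset (V d)) :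
    kerR p A y u v K ≤ ker p A y u v K := by
  unfold kerR ker
  refine mul_le_mul' le_rfl (measure_mono ?_)
  rintro ω ⟨h1, h2, h3⟩
  have hu : u ∈ Cl (del1 (opn p ω) s(u, v)) y := h1.1
  have hv : v ∉ Cl (del1 (opn p ω) s(u, v)) y := by rw [h2]; exact h3
  exact ⟨(eprime_del1_iff hu hv).1 h1, h2⟩

theorem ER_le_Ecal (p : ℝ) (F : Finset (V d) → V d → ℝ≥0∞) (A : Del (V d)) (y : V d) :
    ER p F A y ≤ Ecal p F A y :=
  ENNReal.tsum_le_tsum fun u => ENNReal.tsum_le_tsum fun v => ENNReal.tsum_le_tsum fun K =>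
    mul_le_mul' (kerR_le_ker p A y u v K) le_rfl

theorem ER_mono {p : ℝ} {F G : Finset (V d) → V d → ℝ≥0∞} (h : ∀ K v, F K v ≤ G K v)
    (A : Del (V d)) (y : V d) : ER p F A y ≤ ER p G A y :=
  ENNReal.tsum_le_tsum fun u => ENNReal.tsum_le_tsum fun v => ENNReal.tsum_le_tsum fun K =>
    mul_le_mul' le_rfl (h K v)

theorem Ecal_mono {p : ℝ} {F G : Finset (V d) → V d → ℝ≥0∞} (h : ∀ K v, F K v ≤ G K v)
    (A : Del (V d)) (y : V d) : Ecal p F A y ≤ Ecal p G A y :=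
  ENNReal.tsum_le_tsum fun u => ENNReal.tsum_le_tsum fun v => ENNReal.tsum_le_tsum fun K =>
    mul_le_mul' le_rfl (h K v)

theorem conv_le_nrm (p : ℝ) (b : V d → ℝ≥0∞) (x : V d) : conv (tau p) b x ≤ nrm b := by
  calc conv (tau p) b x ≤ supn (tau p) * nrm b := conv_le_supn_nrm _ _ _
    _ ≤ 1 * nrm b := mul_le_mul' (supn_le fun x => tau_le_one p x) le_rfl
    _ = nrm b := one_mul _

theorem Sg_le_ncard {A : Set (V d)} (hA : A.Finite) {f : V d → ℝ≥0∞} {c : ℝ≥0∞}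
    (h : ∀ x, f x ≤ c) (y : V d) : Sg f A y ≤ (A.ncard : ℝ≥0∞) * c := by
  unfold Sg sumA
  calc ∑' a : A, f ((a : V d) - y) ≤ ∑' _ : A, c := ENNReal.tsum_le_tsum fun a => h _
    _ = (A.encard : ℝ≥0∞) * c := ENNReal.tsum_set_const A c
    _ = (A.ncard : ℝ≥0∞) * c := by
        rw [← hA.cast_ncard_eq]
        simp

end Pool.Agent.PB.LE
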