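import Pool.Agent.PB.LE.Dia
import Pool.Agent.PB.LE.XA
import Pool.Agent.PB.LE.XB
import Pool.Agent.PB.LE.XC
import Pool.Agent.PB.LE.TauF

/-!
# PROJECT PB, LE-EcalLe: the diagram lemma 4.2

PLAN. General step: for `σ` with `supn (conv (J p) (conv τ σ)) ≤ s` and
`supn (conv (J p) (conv τ (conv τ σ))) ≤ s` (`τ = tau p`, `s = small d p`, `b = bigB d p`), `f = conv σ b0`:
`Ecal_le_dia` bounds `Ecal p F A y` by `sumA A.verts` of `X1 + X2 + X3 + X4` with all lines `τ` and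
`g = conv (J p) (conv (conv σ b0) τ)`. `X1_le .. X4_le` (`tau_ev`) give `b1 .. b4` with
`Xi .. y a = conv τ bi (a - y)`; take `b' x = b1 x + b2 x + b3 x + b4 x` (`conv_add_right`), so the bound is
`Sg (conv τ b') A.verts y`. Norms: `nrm b1 ≤ conv τ (conv τ τ) 0 * supn (conv τ g) ≤ b * (s * nrm b0)`
(`B3_le`, `supn_conv_g`), `nrm bi ≤ (τ^{*4})(0) * supn g ≤ b * (s * nrm b0)` (`B4_le` after `conv_assoc`
/`conv_comm`/`cpow_four`, `supn_g`), `nrm_add`. Total `≤ 4 * b * s * nrm b0`.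
`σ = τ`: `s_tau2`, `s_tau3`; `σ = τ_w`: `s_tauw2`, `s_tauw3`.
-/

set_option autoImplicit false
open MeasureTheory Filter Topology
open scoped ENNReal BigOperators

namespace Pool.Agent.PB.LE

variable {d : ℕ}

theorem ecal_le_gen (p : ℝ) {σ b0 : V d → ℝ≥0∞}
    (h2 : supn (conv (J p) (conv (tau p) σ)) ≤ small d p)
    (h3 : supn (conv (J p) (conv (tau p) (conv (tau p) σ))) ≤ small d p) :
    ∃ b' : V d → ℝ≥0∞, nrm b' ≤ 4 * bigB d p * small d p * nrm b0 ∧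
      ∀ F : Finset (V d) → V d → ℝ≥0∞, (∀ K v, F K v ≤ Sg (conv σ b0) (K : Set (V d)) v) →
        ∀ (A : Del (V d)) (y : V d), Ecal p F A y ≤ Sg (conv (tau p) b') A.verts y := by
  have ev : Ev (tau (d := d) p) := tau_ev p
  set g : V d → ℝ≥0∞ := conv (J p) (conv (conv σ b0) (tau p)) with hg
  obtain ⟨b1, e1, n1⟩ := X1_le (tau p) (tau p) (tau p) (tau p) (tau p) g ev
  obtain ⟨b2, e2, n2⟩ := X2_le (tau p) (tau p) (tau p) (tau p) (tau p) g ev
  obtain ⟨b3, e3, n3⟩ := X3_le (tau p) (tau p) (tau p) (tau p) (tau p) g ev ev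
  obtain ⟨b4, e4, n4⟩ := X4_le (tau p) (tau p) (tau p) (tau p) (tau p) g ev ev
  have sg : supn g ≤ small d p * nrm b0 :=
    le_trans (supn_g p σ b0) (mul_le_mul' h2 le_rfl)
  have scg : supn (conv (tau p) g) ≤ small d p * nrm b0 :=
    le_trans (supn_conv_g p (tau p) σ b0) (mul_le_mul' h3 le_rfl)
  have c4 : conv (conv (tau (d := d) p) (tau p)) (conv (tau p) (tau p)) 0 ≤ bigB d p := by
    refine le_trans (le_of_eq ?_) (B4_le p)
    rw [cpow_four, conv_assoc]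
  have c4' : conv (conv (tau (d := d) p) (conv (tau p) (tau p))) (tau p) 0 ≤ bigB d p := by
    refine le_trans (le_of_eq ?_) (B4_le p)
    rw [cpow_four, conv_comm (conv (tau (d := d) p) (conv (tau p) (tau p))) (tau p)]
  have m1 : nrm b1 ≤ bigB d p * (small d p * nrm b0) := n1.trans (mul_le_mul' (B3_le p) scg)
  have m2 : nrm b2 ≤ bigB d p * (small d p * nrm b0) := n2.trans (mul_le_mul' c4' sg)
  have m3 : nrm b3 ≤ bigB d p * (small d p * nrm b0) := n3.trans (mul_le_mul' c4 sg)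
  have m4 : nrm b4 ≤ bigB d p * (small d p * nrm b0) := n4.trans (mul_le_mul' c4 sg)
  refine ⟨fun x => b1 x + b2 x + b3 x + b4 x, ?_, ?_⟩
  · rw [nrm_add (fun x => b1 x + b2 x + b3 x) b4, nrm_add (fun x => b1 x + b2 x) b3, nrm_add b1 b2]
    refine (add_le_add (add_le_add (add_le_add m1 m2) m3) m4).trans (le_of_eq ?_)
    ring
  · intro F hF A y
    refine (Ecal_le_dia p hF A y).trans (le_of_eq ?_)
    unfold Sg
    congr 1
    funext a
    rw [← hg, e1, e2, e3, e4, conv_add_right (tau p) (fun x => b1 x + b2 x + b3 x) b4,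
      conv_add_right (tau p) (fun x => b1 x + b2 x) b3, conv_add_right (tau p) b1 b2]

theorem ecal_le_tau (p : ℝ) (b0 : V d → ℝ≥0∞) :
    ∃ b' : V d → ℝ≥0∞, nrm b' ≤ 4 * bigB d p * small d p * nrm b0 ∧
      ∀ F : Finset (V d) → V d → ℝ≥0∞, (∀ K v, F K v ≤ Sg (conv (tau p) b0) (K : Set (V d)) v) →
        ∀ (A : Del (V d)) (y : V d), Ecal p F A y ≤ Sg (conv (tau p) b') A.verts y :=
  ecal_le_gen p (s_tau2 p) (s_tau3 p)

theorem ecal_le_tauw (p : ℝ) (b0 : V d → ℝ≥0∞) :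
    ∃ b' : V d → ℝ≥0∞, nrm b' ≤ 4 * bigB d p * small d p * nrm b0 ∧
      ∀ F : Finset (V d) → V d → ℝ≥0∞, (∀ K v, F K v ≤ Sg (conv (tauw p) b0) (K : Set (V d)) v) →
        ∀ (A : Del (V d)) (y : V d), Ecal p F A y ≤ Sg (conv (tau p) b') A.verts y :=
  ecal_le_gen p (s_tauw2 p) (s_tauw3 p)

end Pool.Agent.PB.LE
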