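import Pool.Agent.PB.LE.WSplit
import Pool.Agent.PB.LE.XA
import Pool.Agent.PB.LE.XB
import Pool.Agent.PB.LE.XC

/-!
# PROJECT PB, LE-EcalW: the weighted kernel bound (4.4)

`t = tau p`, `tw = tauw p`, `b = bigB d p`, `s = small d p`, `f = conv t b0`,
`g = conv (J p) (conv (conv t b0) t)`.
PLAN. `Ew_le_split`. Apply `X1_le .. X4_le` (`tau_ev`, `tauw_ev`) to each of the 4 + 10 diagrams:
`XW1 = conv tw b3` (first line `tw`), `XW2 = conv t b2`, sums of the functions given by `Xi_le`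
(`conv_add_right`). Every one of the 14 functions has norm `≤ b * s * nrm b0`:
- type 1, norm `≤ conv f4 (conv f3 f5) 0 * supn (conv f2 g)`:
  `f4,f3,f5 = t`: `conv t (conv t t) 0 ≤ b` (`B3_le`); `f4 = tw`: `conv tw (conv t t) 0 = conv t (conv t tw) 0 ≤ b`
  (`conv_comm`, `conv_assoc`, `Bw3_le`). `f2 = t`: `supn (conv t g) ≤ s * nrm b0` (`supn_conv_g` with `h = σ = t`,
  `s_tau3`); `f2 = tw`: `supn (conv tw g) ≤ supn (conv (J p) (conv t (conv tw t))) * nrm b0 ≤ s * nrm b0`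
  (`supn_conv_g`, `conv_comm`, `s_tauw3`).
- types 2, 3, 4: `supn g ≤ s * nrm b0` (`supn_g` with `σ = t`, `s_tau2`), the bubble at 0 is a convolution of
  four `t` (`B4_le`, `cpow_four`) or of three `t` and one `tw` (`Bw4_le`, `cpow_three`) up to
  `conv_assoc`/`conv_comm`.
So `nrm b3 ≤ 4 b s nrm b0`, `nrm b2 ≤ 10 b s nrm b0`; multiply by 4 (`conv_mul_right`, `nrm_mul_left`):
total `16 + 40 = 56`.
-/

set_option autoImplicit false
open MeasureTheory Filter Topology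
open scoped ENNReal BigOperators

namespace Pool.Agent.PB.LE

variable {d : ℕ}

/-- `X` is a convolution in `a - y` with first factor `f` and a second factor of norm at most `c`. -/
private def EwP (f : V d → ℝ≥0∞) (X : V d → V d → ℝ≥0∞) (c : ℝ≥0∞) : Prop :=
  ∃ β : V d → ℝ≥0∞, (∀ y a, X y a = conv f β (a - y)) ∧ nrm β ≤ c

private theorem EwP.add {f : V d → ℝ≥0∞} {X Y : V d → V d → ℝ≥0∞} {c c' : ℝ≥0∞} (hX : EwP f X c)
    (hY : EwP f Y c') : EwP f (fun y a => X y a + Y y a) (c + c') := by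
  obtain ⟨β, h1, h2⟩ := hX
  obtain ⟨γ, h3, h4⟩ := hY
  refine ⟨fun x => β x + γ x, fun y a => ?_, ?_⟩
  · show X y a + Y y a = _
    rw [conv_add_right, h1, h3]
  · rw [nrm_add]
    exact add_le_add h2 h4

private theorem EwP.mul {f : V d → ℝ≥0∞} {X : V d → V d → ℝ≥0∞} {c : ℝ≥0∞} (k : ℝ≥0∞) (hX : EwP f X c) :
    EwP f (fun y a => k * X y a) (k * c) := by
  obtain ⟨β, h1, h2⟩ := hX
  refine ⟨fun x => k * β x, fun y a => ?_, ?_⟩
  · show k * X y a = _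
    rw [conv_mul_right, h1]
  · rw [nrm_mul_left]
    exact mul_le_mul' le_rfl h2

private theorem ew_B3w (p : ℝ) : conv (tauw (d := d) p) (conv (tau p) (tau p)) 0 ≤ bigB d p := by
  rw [conv_comm, conv_assoc]
  exact Bw3_le p

private theorem ew_B4 (p : ℝ) : conv (conv (tau (d := d) p) (conv (tau p) (tau p))) (tau p) 0 ≤ bigB d p := by
  rw [conv_comm, ← cpow_four]
  exact B4_le p

private theorem ew_B4w (p : ℝ) : conv (conv (tau (d := d) p) (conv (tau p) (tau p))) (tauw p) 0 ≤ bigB d p := by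
  rw [← cpow_three]
  exact Bw4_le p

private theorem ew_B22 (p : ℝ) : conv (conv (tau (d := d) p) (tau p)) (conv (tau p) (tau p)) 0 ≤ bigB d p := by
  rw [conv_assoc, ← cpow_four]
  exact B4_le p

private theorem ew_B22w (p : ℝ) : conv (conv (tauw (d := d) p) (tau p)) (conv (tau p) (tau p)) 0 ≤ bigB d p := by
  rw [conv_assoc, conv_comm]
  exact ew_B4w p

private theorem ew_B22w' (p : ℝ) : conv (conv (tau (d := d) p) (tauw p)) (conv (tau p) (tau p)) 0 ≤ bigB d p := by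
  rw [conv_comm (tau p) (tauw p)]
  exact ew_B22w p

private theorem ew_g (p : ℝ) (b0 : V d → ℝ≥0∞) :
    supn (conv (J p) (conv (conv (tau p) b0) (tau p))) ≤ small d p * nrm b0 :=
  (supn_g p (tau p) b0).trans (mul_le_mul' (s_tau2 p) le_rfl)

private theorem ew_tg (p : ℝ) (b0 : V d → ℝ≥0∞) :
    supn (conv (tau p) (conv (J p) (conv (conv (tau p) b0) (tau p)))) ≤ small d p * nrm b0 :=
  (supn_conv_g p (tau p) (tau p) b0).trans (mul_le_mul' (s_tau3 p) le_rfl)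

private theorem ew_twg (p : ℝ) (b0 : V d → ℝ≥0∞) :
    supn (conv (tauw p) (conv (J p) (conv (conv (tau p) b0) (tau p)))) ≤ small d p * nrm b0 := by
  refine (supn_conv_g p (tauw p) (tau p) b0).trans (mul_le_mul' ?_ le_rfl)
  rw [conv_comm (tauw p) (tau p)]
  exact s_tauw3 p

private theorem ew_X1 (f1 f2 f3 f4 f5 g : V d → ℝ≥0∞) (h4 : Ev f4) {b s : ℝ≥0∞}
    (hb : conv f4 (conv f3 f5) 0 ≤ b) (hs : supn (conv f2 g) ≤ s) :
    EwP f1 (X1 f1 f2 f3 f4 f5 g) (b * s) := by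
  obtain ⟨β, h1, h2⟩ := X1_le f1 f2 f3 f4 f5 g h4
  exact ⟨β, h1, h2.trans (mul_le_mul' hb hs)⟩

private theorem ew_X2 (f1 f2 f3 f4 f5 g : V d → ℝ≥0∞) (h4 : Ev f4) {b s : ℝ≥0∞}
    (hb : conv (conv f2 (conv f3 f5)) f4 0 ≤ b) (hs : supn g ≤ s) :
    EwP f1 (X2 f1 f2 f3 f4 f5 g) (b * s) := by
  obtain ⟨β, h1, h2⟩ := X2_le f1 f2 f3 f4 f5 g h4
  exact ⟨β, h1, h2.trans (mul_le_mul' hb hs)⟩

private theorem ew_X3 (f1 f2 f3 f4 f5 g : V d → ℝ≥0∞) (h2 : Ev f2) (h5 : Ev f5) {b s : ℝ≥0∞}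
    (hb : conv (conv f3 f4) (conv f2 f5) 0 ≤ b) (hs : supn g ≤ s) :
    EwP f1 (X3 f1 f2 f3 f4 f5 g) (b * s) := by
  obtain ⟨β, h1, h2⟩ := X3_le f1 f2 f3 f4 f5 g h2 h5
  exact ⟨β, h1, h2.trans (mul_le_mul' hb hs)⟩

private theorem ew_X4 (f1 f2 f3 f4 f5 g : V d → ℝ≥0∞) (h2 : Ev f2) (h5 : Ev f5) {b s : ℝ≥0∞}
    (hb : conv (conv f3 f4) (conv f2 f5) 0 ≤ b) (hs : supn g ≤ s) :
    EwP f1 (X4 f1 f2 f3 f4 f5 g) (b * s) := by
  obtain ⟨β, h1, h2⟩ := X4_le f1 f2 f3 f4 f5 g h2 h5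
  exact ⟨β, h1, h2.trans (mul_le_mul' hb hs)⟩

theorem Ew_le (p : ℝ) (b0 : V d → ℝ≥0∞) :
    ∃ b2 b3 : V d → ℝ≥0∞, nrm b2 + nrm b3 ≤ 56 * bigB d p * small d p * nrm b0 ∧
      ∀ F : Finset (V d) → V d → ℝ≥0∞, (∀ K v, F K v ≤ Sg (conv (tau p) b0) (K : Set (V d)) v) →
        ∀ (A : Del (V d)) (y : V d),
          Ew p w2 F A y ≤ Sg (conv (tau p) b2) A.verts y + Sg (conv (tauw p) b3) A.verts y := by
  obtain ⟨g, hg⟩ : ∃ g, g = conv (J (d := d) p) (conv (conv (tau p) b0) (tau p)) := ⟨_, rfl⟩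
  have he : Ev (tau (d := d) p) := tau_ev p
  have hew : Ev (tauw (d := d) p) := tauw_ev p
  have hs0 : supn g ≤ small d p * nrm b0 := by rw [hg]; exact ew_g p b0
  have hs1 : supn (conv (tau p) g) ≤ small d p * nrm b0 := by rw [hg]; exact ew_tg p b0
  have hs2 : supn (conv (tauw p) g) ≤ small d p * nrm b0 := by rw [hg]; exact ew_twg p b0
  obtain ⟨b3, h3, n3⟩ := (((ew_X1 (tauw p) (tau p) (tau p) (tau p) (tau p) g he (B3_le p) hs1).add
    (ew_X2 (tauw p) (tau p) (tau p) (tau p) (tau p) g he (ew_B4 p) hs0)).add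
    (ew_X3 (tauw p) (tau p) (tau p) (tau p) (tau p) g he he (ew_B22 p) hs0)).add
    (ew_X4 (tauw p) (tau p) (tau p) (tau p) (tau p) g he he (ew_B22 p) hs0) |>.mul 4
  obtain ⟨b2, h2, n2⟩ := ((((((ew_X1 (tau p) (tauw p) (tau p) (tau p) (tau p) g he (B3_le p) hs2).add
    (ew_X1 (tau p) (tau p) (tau p) (tauw p) (tau p) g hew (ew_B3w p) hs1)).add
    (ew_X1 (tau p) (tau p) (tau p) (tau p) (tau p) g he (B3_le p) hs1))).add
    ((ew_X2 (tau p) (tau p) (tau p) (tauw p) (tau p) g hew (ew_B4w p) hs0).add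
    (ew_X2 (tau p) (tau p) (tau p) (tau p) (tau p) g he (ew_B4 p) hs0))).add
    (((ew_X3 (tau p) (tau p) (tauw p) (tau p) (tau p) g he he (ew_B22w p) hs0).add
    (ew_X3 (tau p) (tau p) (tau p) (tauw p) (tau p) g he he (ew_B22w' p) hs0)).add
    (ew_X3 (tau p) (tau p) (tau p) (tau p) (tau p) g he he (ew_B22 p) hs0))).add
    ((ew_X4 (tau p) (tau p) (tauw p) (tau p) (tau p) g he he (ew_B22w p) hs0).add
    (ew_X4 (tau p) (tau p) (tau p) (tau p) (tau p) g he he (ew_B22 p) hs0)) |>.mul 4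
  refine ⟨b2, b3, (add_le_add n2 n3).trans (le_of_eq (by ring)), fun F hF A y => ?_⟩
  refine (Ew_le_split p hF A y).trans ?_
  rw [← hg]
  unfold Sg
  rw [add_comm, ← sumA_add]
  refine sumA_mono _ fun a => ?_
  rw [← h3 y a, ← h2 y a]
  exact le_rfl

end Pool.Agent.PB.LE
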