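import Pool.Agent.PB.LE.Disj
import Pool.Agent.PB.LE.DetI

/-!
# PROJECT PB, LE-P4: the probability of `E'` (with an attached vertex `c`), 4.2 and 4.3

PLAN. `Xi_le`: by `eprime_four`, `{EPrime (opn p ω) y u A} ⊆ ⋃ a ∈ A.verts, ⋃ w, {DisjConn (opn p ω)
![(y,w),(w,a),(a,u),(w,u)]}` (countable union over the subtype `A.verts` and `w`), so
`measure_mono`, `measure_iUnion_le` (twice) and `pr_disj4`. `sumA` is a `tsum` over the subtype.
`pr_eprime_conn`: by `eprime_four` and `attach_four` the event is contained in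
`⋃ a ∈ A.verts, ⋃ w, ⋃ z, (D1 ∪ D2 ∪ D3 ∪ D4)`, `Di` the four `DisjConn` events of `attach_four`;
`measure_iUnion_le`, `measure_union_le`, `pr_disj6`. The products of `pr_disj6` are those of `t4` up to
order and `tau_neg` (line `(a,u)`: `tau (u-a)`; in the fourth type the lines `(u,z)`, `(z,a)` give
`tau (z-u)`, `tau (a-z)`).
-/

set_option autoImplicit false
open MeasureTheory Filter Topology
open scoped ENNReal BigOperators

namespace Pool.Agent.PB.LE

variable {d : ℕ}

theorem Xi_le (p : ℝ) (u : V d) (A : Del (V d)) (y : V d) :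
    Xi p u A y ≤ sumA A.verts (fun a => ∑' w : V d,
      tau p (w - y) * tau p (a - w) * tau p (u - a) * tau p (u - w)) := by
  unfold Xi sumA
  refine le_trans (measure_mono (t := ⋃ a : A.verts, ⋃ w : V d,
    {ω | DisjConn (opn p ω) ![(y, w), (w, (a : V d)), ((a : V d), u), (w, u)]}) ?_) ?_
  · intro ω hω
    obtain ⟨a, ha, w, hw⟩ := eprime_four hω
    exact Set.mem_iUnion.2 ⟨⟨a, ha⟩, Set.mem_iUnion.2 ⟨w, hw⟩⟩
  · refine (measure_iUnion_le _).trans (ENNReal.tsum_le_tsum fun a => ?_)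
    refine (measure_iUnion_le _).trans (ENNReal.tsum_le_tsum fun w => ?_)
    exact pr_disj4 p _ _ _ _ _ _ _ _

theorem pr_eprime_conn (p : ℝ) (u c : V d) (A : Del (V d)) (y : V d) :
    Pr d {ω | EPrime (opn p ω) y u A ∧ Rch (opn p ω) y c} ≤
      sumA A.verts (fun a => ∑' w : V d, ∑' z : V d, t4 p y a u w z * tau p (c - z)) := by
  unfold sumA
  refine le_trans (measure_mono (t := ⋃ a : A.verts, ⋃ w : V d, ⋃ z : V d,
    ({ω | DisjConn (opn p ω) ![(y, z), (z, w), (w, (a : V d)), ((a : V d), u), (w, u), (z, c)]} ∪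
      {ω | DisjConn (opn p ω) ![(y, w), (w, z), (z, (a : V d)), ((a : V d), u), (w, u), (z, c)]} ∪
      {ω | DisjConn (opn p ω) ![(y, w), (w, (a : V d)), (w, z), (z, u), ((a : V d), u), (z, c)]} ∪
      {ω | DisjConn (opn p ω) ![(y, w), (w, (a : V d)), (w, u), (u, z), (z, (a : V d)),
        (z, c)]})) ?_) ?_
  · intro ω hω
    obtain ⟨a, ha, w, hw⟩ := eprime_four hω.1
    obtain ⟨z, hz⟩ := attach_four hw hω.2
    refine Set.mem_iUnion.2 ⟨⟨a, ha⟩, Set.mem_iUnion.2 ⟨w, Set.mem_iUnion.2 ⟨z, ?_⟩⟩⟩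
    rcases hz with h | h | h | h
    · exact Or.inl (Or.inl (Or.inl h))
    · exact Or.inl (Or.inl (Or.inr h))
    · exact Or.inl (Or.inr h)
    · exact Or.inr h
  · refine (measure_iUnion_le _).trans (ENNReal.tsum_le_tsum fun a => ?_)
    refine (measure_iUnion_le _).trans (ENNReal.tsum_le_tsum fun w => ?_)
    refine (measure_iUnion_le _).trans (ENNReal.tsum_le_tsum fun z => ?_)
    have e : t4 p y (a : V d) u w z * tau p (c - z) =
        tau p (z - y) * tau p (w - z) * tau p ((a : V d) - w) * tau p (u - (a : V d)) *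
          tau p (u - w) * tau p (c - z) +
        tau p (w - y) * tau p (z - w) * tau p ((a : V d) - z) * tau p (u - (a : V d)) *
          tau p (u - w) * tau p (c - z) +
        tau p (w - y) * tau p ((a : V d) - w) * tau p (z - w) * tau p (u - z) *
          tau p (u - (a : V d)) * tau p (c - z) +
        tau p (w - y) * tau p ((a : V d) - w) * tau p (u - w) * tau p (z - u) *
          tau p ((a : V d) - z) * tau p (c - z) := by
      unfold t4
      ring
    rw [e]
    refine (measure_union_le _ _).trans (add_le_add ?_ (pr_disj6 p _ _ _ _ _ _ _ _ _ _ _ _))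
    refine (measure_union_le _ _).trans (add_le_add ?_ (pr_disj6 p _ _ _ _ _ _ _ _ _ _ _ _))
    exact (measure_union_le _ _).trans
      (add_le_add (pr_disj6 p _ _ _ _ _ _ _ _ _ _ _ _) (pr_disj6 p _ _ _ _ _ _ _ _ _ _ _ _))

end Pool.Agent.PB.LE
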