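import Pool.Agent.PB.LE.EcalLe
import Pool.Agent.PB.LE.EcalW
import Pool.Agent.PB.LE.Base
import Pool.Agent.PB.LE.E1Iter

/-!
# PROJECT PB, LE-Rec: the induction on `N` (4.3, 4.4)

`b = bigB d p`, `s = small d p`, `Λ = 120 * b * s`.
PLAN. `FN_succ`: `FN p (N+1) K v = EcalF p (FN p N) K v` (`Function.iterate_succ_apply'`, exchange of sums:
`EcalF_tsum_mul` with `c = 1`, or directly `ENNReal.tsum_comm`).
`HN_succ_le`: `w2 (x - y) ≤ 2 w2 (v - y) + 2 w2 (x - v)` inside the sum over `v`
(`n2_add_le`): `HN p (N+1) K y ≤ 2 * EcalF p (HN p N) K y + 2 * Ew p w2 (FN p N) (ofSet K) y`.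
`FN_le`, `HN_le` by induction on `N` (`Del.ofSet_verts`): let `u_N = nrm (β N)`,
`v_N = nrm (β' N) + nrm (γ N)`. Base: `sum_Xi_le`, `wsum_Xi_le` with `A = ofSet K` (`FN p 0`, `HN p 0` are these
sums). Step: `ecal_le_tau` gives `β (N+1)`, `u_{N+1} ≤ 4 b s u_N`; for `HN`: `EcalF p` of the sum of two functions
(`EcalF_mono`, `EcalF_add`), `ecal_le_tauw` on the `β'` part and `ecal_le_tau` on the `γ` part, `Ew_le` for
the second term: `v_{N+1} ≤ 2 * (4 b s) * v_N + 2 * 56 b s * u_N`. Hence with the joint induction hypothesis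
`u_N + v_N ≤ Λ^N * (5 b)`: `u_{N+1} + v_{N+1} ≤ 116 b s (u_N + v_N) ≤ Λ^(N+1) * (5 b)`.
State and prove the joint statement `joint` by induction, it contains everything.
-/

set_option autoImplicit false
open MeasureTheory Filter Topology
open scoped ENNReal BigOperators

namespace Pool.Agent.PB.LE

variable {d : ℕ}

private theorem tsum4 (f : V d → V d → V d → Finset (V d) → ℝ≥0∞) :
    ∑' x, ∑' u, ∑' v, ∑' K', f x u v K' = ∑' u, ∑' v, ∑' K', ∑' x, f x u v K' := by
  refine ENNReal.tsum_comm.trans ?_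
  refine tsum_congr fun u => ?_
  refine ENNReal.tsum_comm.trans ?_
  refine tsum_congr fun v => ?_
  exact ENNReal.tsum_comm

theorem FN_succ (p : ℝ) (N : ℕ) (K : Finset (V d)) (v : V d) :
    FN p (N + 1) K v = EcalF p (FN p N) K v := by
  have h := EcalF_tsum_mul p (fun _ : V d => (1 : ℝ≥0∞)) (fun x => (EcalF p)^[N] (XiF p x))
  simp only [mul_one] at h
  have h1 : (fun (K : Finset (V d)) (v : V d) => ∑' u : V d, ((EcalF p)^[N] (XiF p u)) K v) =
      FN p N := rfl
  rw [h1] at h
  rw [h]
  unfold FN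
  refine tsum_congr fun x => ?_
  rw [Function.iterate_succ_apply']

theorem HN_succ_le (p : ℝ) (N : ℕ) (K : Finset (V d)) (y : V d) :
    HN p (N + 1) K y ≤
      2 * EcalF p (HN p N) K y + 2 * Ew p w2 (FN p N) (Del.ofSet (K : Set (V d))) y := by
  set G : V d → Finset (V d) → V d → ℝ≥0∞ := fun x => (EcalF p)^[N] (XiF p x) with hG
  set A : Del (V d) := Del.ofSet (K : Set (V d)) with hA
  have hw : ∀ x v : V d, w2 (x - y) ≤ 2 * w2 (x - v) + 2 * w2 (v - y) := by
    intro x v
    have h := n2_add_le (x - v) (v - y)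
    rw [sub_add_sub_cancel] at h
    unfold w2
    exact_mod_cast h
  have e1 : HN p (N + 1) K y = ∑' x : V d, ∑' u : V d, ∑' v : V d, ∑' K' : Finset (V d),
      w2 (x - y) * (ker p A y u v K' * G x K' v) := by
    unfold HN
    refine tsum_congr fun x => ?_
    rw [Function.iterate_succ_apply']
    change w2 (x - y) * Ecal p (G x) A y = _
    unfold Ecal
    rw [← ENNReal.tsum_mul_left]
    refine tsum_congr fun u => ?_
    rw [← ENNReal.tsum_mul_left]
    refine tsum_congr fun v => ?_
    rw [← ENNReal.tsum_mul_left]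
  have e2 : 2 * EcalF p (HN p N) K y = ∑' x : V d, ∑' u : V d, ∑' v : V d, ∑' K' : Finset (V d),
      2 * (w2 (x - v) * (ker p A y u v K' * G x K' v)) := by
    change 2 * Ecal p (HN p N) A y = _
    unfold Ecal
    rw [tsum4, ← ENNReal.tsum_mul_left]
    refine tsum_congr fun u => ?_
    rw [← ENNReal.tsum_mul_left]
    refine tsum_congr fun v => ?_
    rw [← ENNReal.tsum_mul_left]
    refine tsum_congr fun K' => ?_
    unfold HN
    rw [← ENNReal.tsum_mul_left, ← ENNReal.tsum_mul_left]
    refine tsum_congr fun x => ?_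
    simp only [hG]
    ring
  have e3 : 2 * Ew p w2 (FN p N) A y = ∑' x : V d, ∑' u : V d, ∑' v : V d, ∑' K' : Finset (V d),
      2 * (w2 (v - y) * (ker p A y u v K' * G x K' v)) := by
    unfold Ew
    rw [tsum4, ← ENNReal.tsum_mul_left]
    refine tsum_congr fun u => ?_
    rw [← ENNReal.tsum_mul_left]
    refine tsum_congr fun v => ?_
    rw [← ENNReal.tsum_mul_left]
    refine tsum_congr fun K' => ?_
    unfold FN
    rw [← ENNReal.tsum_mul_left, ← ENNReal.tsum_mul_left]
    refine tsum_congr fun x => ?_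
    simp only [hG]
    ring
  rw [e1, e2, e3, ← ENNReal.tsum_add]
  refine ENNReal.tsum_le_tsum fun x => ?_
  rw [← ENNReal.tsum_add]
  refine ENNReal.tsum_le_tsum fun u => ?_
  rw [← ENNReal.tsum_add]
  refine ENNReal.tsum_le_tsum fun v => ?_
  rw [← ENNReal.tsum_add]
  refine ENNReal.tsum_le_tsum fun K' => ?_
  calc w2 (x - y) * (ker p A y u v K' * G x K' v)
      ≤ (2 * w2 (x - v) + 2 * w2 (v - y)) * (ker p A y u v K' * G x K' v) :=
        mul_le_mul' (hw x v) le_rfl
    _ = _ := by ring

theorem joint (p : ℝ) (N : ℕ) : ∃ β β' γ : V d → ℝ≥0∞,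
    nrm β + (nrm β' + nrm γ) ≤ (120 * bigB d p * small d p) ^ N * (5 * bigB d p) ∧
    (∀ K v, FN p N K v ≤ Sg (conv (tau p) β) (K : Set (V d)) v) ∧
    (∀ K v, HN p N K v ≤
      Sg (conv (tauw p) β') (K : Set (V d)) v + Sg (conv (tau p) γ) (K : Set (V d)) v) := by
  induction N with
  | zero =>
    obtain ⟨β, h1, h2⟩ := sum_Xi_le (d := d) p
    obtain ⟨β', γ, h3, h4⟩ := wsum_Xi_le (d := d) p
    refine ⟨β, β', γ, ?_, ?_, ?_⟩
    · rw [pow_zero, one_mul]
      calc nrm β + (nrm β' + nrm γ) ≤ bigB d p + 4 * bigB d p := add_le_add h1 h3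
        _ = 5 * bigB d p := by ring
    · intro K v
      have := h2 (Del.ofSet (K : Set (V d))) v
      rw [Del.ofSet_verts] at this
      exact this
    · intro K v
      have := h4 (Del.ofSet (K : Set (V d))) v
      rw [Del.ofSet_verts] at this
      exact this
  | succ N ih =>
    obtain ⟨β, β', γ, h0, hF, hH⟩ := ih
    obtain ⟨β1, n1, k1⟩ := ecal_le_tau p β
    obtain ⟨β1', n1', k1'⟩ := ecal_le_tauw p β'
    obtain ⟨γ1, n2, k2⟩ := ecal_le_tau p γ
    obtain ⟨b2, b3, n3, k3⟩ := Ew_le p β
    refine ⟨β1, fun x => 2 * b3 x, fun x => 2 * (b2 x + (β1' x + γ1 x)), ?_, ?_, ?_⟩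
    · rw [nrm_mul_left, nrm_mul_left, nrm_add, nrm_add]
      calc nrm β1 + (2 * nrm b3 + 2 * (nrm b2 + (nrm β1' + nrm γ1)))
          = nrm β1 + 2 * (nrm b2 + nrm b3) + 2 * (nrm β1' + nrm γ1) := by ring
        _ ≤ 4 * bigB d p * small d p * nrm β + 2 * (56 * bigB d p * small d p * nrm β) +
            2 * (4 * bigB d p * small d p * nrm β' + 4 * bigB d p * small d p * nrm γ) :=
          add_le_add (add_le_add n1 (mul_le_mul' le_rfl n3))
            (mul_le_mul' le_rfl (add_le_add n1' n2))
        _ ≤ (4 * bigB d p * small d p * nrm β + 2 * (56 * bigB d p * small d p * nrm β) +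
            2 * (4 * bigB d p * small d p * nrm β' + 4 * bigB d p * small d p * nrm γ)) +
            (4 * bigB d p * small d p * nrm β + 112 * bigB d p * small d p * (nrm β' + nrm γ)) :=
          le_self_add
        _ = 120 * bigB d p * small d p * (nrm β + (nrm β' + nrm γ)) := by ring
        _ ≤ 120 * bigB d p * small d p *
            ((120 * bigB d p * small d p) ^ N * (5 * bigB d p)) := mul_le_mul' le_rfl h0
        _ = (120 * bigB d p * small d p) ^ (N + 1) * (5 * bigB d p) := by ring
    · intro K v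
      rw [FN_succ]
      have := k1 (FN p N) hF (Del.ofSet (K : Set (V d))) v
      rw [Del.ofSet_verts] at this
      exact this
    · intro K v
      refine (HN_succ_le p N K v).trans ?_
      have i1 : EcalF p (HN p N) K v ≤
          Sg (conv (tau p) β1') (K : Set (V d)) v + Sg (conv (tau p) γ1) (K : Set (V d)) v := by
        refine (EcalF_mono hH K v).trans ?_
        have h := EcalF_add p (fun (K : Finset (V d)) v => Sg (conv (tauw p) β') (K : Set (V d)) v)
          (fun (K : Finset (V d)) v => Sg (conv (tau p) γ) (K : Set (V d)) v)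
        have h' := congrFun (congrFun h K) v
        rw [h']
        have j1 := k1' (fun K v => Sg (conv (tauw p) β') (K : Set (V d)) v)
          (fun _ _ => le_rfl) (Del.ofSet (K : Set (V d))) v
        have j2 := k2 (fun K v => Sg (conv (tau p) γ) (K : Set (V d)) v)
          (fun _ _ => le_rfl) (Del.ofSet (K : Set (V d))) v
        rw [Del.ofSet_verts] at j1 j2
        exact add_le_add j1 j2
      have i2 := k3 (FN p N) hF (Del.ofSet (K : Set (V d))) v
      rw [Del.ofSet_verts] at i2
      have hc1 : conv (tauw p) (fun x => 2 * b3 x) = fun x => 2 * conv (tauw p) b3 x := by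
        funext x
        rw [conv_mul_right]
      have hc2 : conv (tau p) (fun x => 2 * (b2 x + (β1' x + γ1 x))) =
          fun x => 2 * (conv (tau p) b2 x + (conv (tau p) β1' x + conv (tau p) γ1 x)) := by
        funext x
        rw [conv_mul_right, conv_add_right, conv_add_right]
      rw [hc1, hc2, Sg_mul_left, Sg_mul_left, Sg_add, Sg_add]
      calc 2 * EcalF p (HN p N) K v + 2 * Ew p w2 (FN p N) (Del.ofSet (K : Set (V d))) v
          ≤ 2 * (Sg (conv (tau p) β1') (K : Set (V d)) v + Sg (conv (tau p) γ1) (K : Set (V d)) v) +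
            2 * (Sg (conv (tau p) b2) (K : Set (V d)) v + Sg (conv (tauw p) b3) (K : Set (V d)) v) :=
            add_le_add (mul_le_mul' le_rfl i1) (mul_le_mul' le_rfl i2)
        _ = _ := by ring

end Pool.Agent.PB.LE
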