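import Pool.Agent.PB.LE.Disj
import Pool.Agent.PB.Link
import Pool.Agent.PB.P.Expl

/-!
# PROJECT PB, LE-TauA: elementary facts about `|x|²`, `J_p` and `τ ≤ J * τ` (1.4)

PLAN.
`n2_add_le`: coordinatewise `(a+b)^2 ≤ 2a^2+2b^2` for integers (`Int.natAbs`, cast to `ℤ` with
`Int.natAbs_sq`, sum with `Finset.sum_le_sum`). `n2_add4_le` the same with four terms.
`n2_of_l1`: `l1_eq_one_iff` (in Link.lean): `x = ± Pi.single i 1`.
`w2_mul_J`: if `l1 x = 1` then `n2 x = 1`, else `J p x = 0`. `J_ev`: `l1_neg`.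
`tau_le_J`: for `x ≠ 0` and `O = opn p ω`, `{Rch O 0 x} ⊆ ⋃ v, {s(0,v) ∈ O} ∩ {Rch {e ∈ O | ∀ z ∈ e, z ≠ 0} v x}`:
apply `Rch.exists_first_cross` to the reversed connection `Rch O x 0` with the vertex set `{0}ᶜ`: it gives
`a ≠ 0`, `b = 0`, `s(a,b) ∈ O` and `Rch {e ∈ O | ∀ z ∈ e, z ≠ 0} x a`. The two events depend on
disjoint sets of labels (`Sum.inl s(0,v)`, and the edges not containing `0`): `Pr_inter_indep`,
`Pr_label_le` (P/Mix) and `dep_*` (P/Loc: `rem_ofSet`, `dep_Rch_off` with `K = {0}`), or use BK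
(`pr_disj2`-like: the sets `{s(0,v)}` and `{e ∈ O | ∀ z ∈ e, z ≠ 0}` are disjoint). For `v` not adjacent to 0
the first event is empty (`mem_opn`). `Pr {s(0,v) ∈ opn} ≤ ofReal (min p 1) ≤ ofReal p = J p v`,
`Pr {Rch .. v x} ≤ tau p (x - v)` (`Rch.mono`, `tau_shift`). Sum over `v` (`measure_iUnion_le`):
`∑' v, J p v * tau p (x - v) = conv (J p) (tau p) x`.
-/

set_option autoImplicit false
open MeasureTheory Filter Topology
open scoped ENNReal BigOperators

namespace Pool.Agent.PB.LE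

variable {d : ℕ}

theorem n2_add_le (x y : V d) : n2 (x + y) ≤ 2 * n2 x + 2 * n2 y := by
  unfold n2
  rw [Finset.mul_sum, Finset.mul_sum, ← Finset.sum_add_distrib]
  refine Finset.sum_le_sum fun i _ => ?_
  zify
  simp only [sq_abs, Pi.add_apply]
  nlinarith [sq_nonneg (x i - y i)]

theorem n2_add4_le (x y z w : V d) : n2 (x + y + z + w) ≤ 4 * (n2 x + n2 y + n2 z + n2 w) := by
  unfold n2
  rw [← Finset.sum_add_distrib, ← Finset.sum_add_distrib, ← Finset.sum_add_distrib,
    Finset.mul_sum]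
  refine Finset.sum_le_sum fun i _ => ?_
  zify
  simp only [sq_abs, Pi.add_apply]
  nlinarith [sq_nonneg (x i - y i), sq_nonneg (x i - z i), sq_nonneg (x i - w i),
    sq_nonneg (y i - z i), sq_nonneg (y i - w i), sq_nonneg (z i - w i)]

theorem n2_of_l1 {x : V d} (h : l1 x = 1) : n2 x = 1 := by
  classical
  obtain ⟨i, h | h⟩ := (l1_eq_one_iff x).1 h
  all_goals
    subst h
    unfold n2
    rw [Finset.sum_eq_single i]
    · simp
    · intro j _ hj
      simp [Pi.single_eq_of_ne hj]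
    · simp

theorem w2_mul_J (p : ℝ) (x : V d) : w2 x * J p x = J p x := by
  by_cases h : l1 x = 1
  · unfold w2
    rw [n2_of_l1 h, Nat.cast_one, one_mul]
  · have h0 : J p x = 0 := by
      unfold J
      exact if_neg h
    rw [h0, mul_zero]

theorem J_ev (p : ℝ) : Ev (J (d := d) p) := by
  intro x
  unfold J
  rw [l1_neg]

private theorem taua_edge_le (p : ℝ) (v : V d) :
    Pr d {ω | s((0 : V d), v) ∈ opn p ω} ≤ J p v := by
  by_cases h : l1 v = 1
  · have he : s((0 : V d), v) ∈ (lat d).edgeSet := by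
      change l1 (v - 0) = 1
      rw [sub_zero, h]
    rw [Pr_edge p he]
    have h1 : J p v = ENNReal.ofReal p := by
      unfold J
      exact if_pos h
    rw [h1]
    exact ENNReal.ofReal_le_ofReal (min_le_left _ _)
  · have h1 : {ω : Om d | s((0 : V d), v) ∈ opn p ω} = ∅ := by
      ext ω
      simp only [Set.mem_ofPred_eq, Set.mem_empty_iff_false, iff_false]
      intro h2
      apply h
      have h3 := (mem_opn.1 h2).1
      rwa [sub_zero] at h3
    rw [h1, measure_empty]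
    exact zero_le

private theorem taua_off_le (p : ℝ) (v x : V d) :
    Pr d {ω | x ∈ ClA (Del.ofSet {(0 : V d)}) (opn p ω) v} ≤ tau p (x - v) := by
  rw [← tau_shift p v x]
  refine measure_mono ?_
  intro ω hω
  exact Rch.mono (Del.rem_subset _ _) hω.2

private theorem taua_cover (p : ℝ) {x : V d} (hx : x ≠ 0) :
    {ω : Om d | Rch (opn p ω) 0 x} ⊆ ⋃ v : V d, ({ω | s((0 : V d), v) ∈ opn p ω} ∩
      {ω | x ∈ ClA (Del.ofSet {(0 : V d)}) (opn p ω) v}) := by
  intro ω hω
  have h1 : Rch (opn p ω) x 0 := Rch.symm hω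
  obtain ⟨a, b, ha, hb, hab, hr⟩ := Rch.exists_first_cross ({(0 : V d)}ᶜ : Set (V d))
    (by simpa using hx) (by simp) h1
  have hb0 : b = 0 := by simpa using hb
  subst hb0
  rw [Set.mem_iUnion]
  refine ⟨a, ?_, ?_⟩
  · change s((0 : V d), a) ∈ opn p ω
    rw [Sym2.eq_swap]
    exact hab
  · refine ⟨ha, ?_⟩
    refine Rch.symm (Rch.mono ?_ hr)
    intro e he
    rw [rem_ofSet]
    refine ⟨he.1, ?_⟩
    rintro ⟨z, hz, hz0⟩
    exact he.2 z hz hz0

theorem tau_le_J (p : ℝ) {x : V d} (hx : x ≠ 0) : tau p x ≤ conv (J p) (tau p) x := by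
  unfold tau
  refine (measure_mono (taua_cover p hx)).trans ((measure_iUnion_le _).trans ?_)
  refine ENNReal.tsum_le_tsum fun v => ?_
  have hdis : Disjoint ({Sum.inl s((0 : V d), v)} : Set (Ix d)) (tI {(0 : V d)})ᶜ := by
    rw [Set.disjoint_left]
    intro i hi hi'
    rw [Set.mem_singleton_iff] at hi
    subst hi
    exact hi' (inl_mem_tI.2 (mem_touch_left rfl))
  rw [Pr_inter_dep hdis (opn_MES p _) (((opn_MES p).clA _ v) x) (dep_mem_opn p _)
    (dep_Rch_off p v x {(0 : V d)})]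
  exact mul_le_mul' (taua_edge_le p v) (taua_off_le p v x)

end Pool.Agent.PB.LE
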