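import Pool.Agent.PB.LE.Dia
import Pool.Agent.PB.LE.TauF

/-!
# PROJECT PB, LE-WSplit: the weighted kernel is bounded by diagrams with one weighted line (4.4)

`g = conv (J p) (conv f (tau p))`, `t = tau p`, `tw = tauw p`, `w2 x = |x|²`.
PLAN. `Ew_le_dia` with `wt = w2`. In each type write `v - y` as a sum of displacements along lines and
of `v - u`, and use `n2_add4_le` (with one displacement 0 in types 2 and 4):
type 1: `(z-y) + (w-z) + (u-w) + (v-u)` (lines f1, f2, f4);
type 2: `(w-y) + (u-w) + (v-u)` (lines f1, f4);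
type 3: `(w-y) + (z-w) + (u-z) + (v-u)` (lines f1, f3, f4);
type 4: `(w-y) + (u-w) + (v-u)` (lines f1, f3).
`w2 (x - x') * tau p (x - x') = tauw p (x - x')` by definition, `w2 (v-u) * J p (v-u) = J p (v-u)`
(`w2_mul_J`), and `∑' v, J p (v-u) * conv f t (z-v) = g (z-u)` (`tsum_sub_right`). Sum termwise
(`ENNReal.tsum_add`, `ENNReal.tsum_mul_left`, `sumA_mono`).
-/

set_option autoImplicit false
open MeasureTheory Filter Topology
open scoped ENNReal BigOperators

namespace Pool.Agent.PB.LE

variable {d : ℕ}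

/-- the sum of the diagrams whose first line is weighted -/
noncomputable def XW1 (p : ℝ) (g : V d → ℝ≥0∞) (y a : V d) : ℝ≥0∞ :=
  X1 (tauw p) (tau p) (tau p) (tau p) (tau p) g y a +
  X2 (tauw p) (tau p) (tau p) (tau p) (tau p) g y a +
  X3 (tauw p) (tau p) (tau p) (tau p) (tau p) g y a +
  X4 (tauw p) (tau p) (tau p) (tau p) (tau p) g y a

/-- the sum of the diagrams whose first line is not weighted -/
noncomputable def XW2 (p : ℝ) (g : V d → ℝ≥0∞) (y a : V d) : ℝ≥0∞ :=
  (X1 (tau p) (tauw p) (tau p) (tau p) (tau p) g y a +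
  X1 (tau p) (tau p) (tau p) (tauw p) (tau p) g y a +
  X1 (tau p) (tau p) (tau p) (tau p) (tau p) g y a) +
  (X2 (tau p) (tau p) (tau p) (tauw p) (tau p) g y a +
  X2 (tau p) (tau p) (tau p) (tau p) (tau p) g y a) +
  (X3 (tau p) (tau p) (tauw p) (tau p) (tau p) g y a +
  X3 (tau p) (tau p) (tau p) (tauw p) (tau p) g y a +
  X3 (tau p) (tau p) (tau p) (tau p) (tau p) g y a) +
  (X4 (tau p) (tau p) (tauw p) (tau p) (tau p) g y a +
  X4 (tau p) (tau p) (tau p) (tau p) (tau p) g y a)

private theorem w2_4 (a b c e : V d) :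
    w2 (a + b + c + e) ≤ 4 * (w2 a + w2 b + w2 c + w2 e) := by
  unfold w2
  have := n2_add4_le a b c e
  exact_mod_cast this

private theorem w2_zero : w2 (0 : V d) = 0 := by
  simp [w2, n2]

private theorem tw_eq (p : ℝ) (x : V d) : tauw p x = w2 x * tau p x := rfl

private theorem w2_of_l1 {x : V d} (h : l1 x = 1) : w2 x = 1 := by
  unfold w2
  rw [n2_of_l1 h]; simp

/-- the pointwise inequality on coefficients -/
private theorem coeff_le (p : ℝ) (y a u w z v : V d) (h : l1 (v - u) = 1) :
    w2 (v - y) * t4 p y a u w z ≤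
      4 * (tauw p (z - y) * tau p (w - z) * tau p (a - w) * tau p (u - w) * tau p (u - a) +
        tauw p (w - y) * tau p (z - w) * tau p (a - z) * tau p (u - w) * tau p (u - a) +
        tauw p (w - y) * tau p (a - w) * tau p (z - w) * tau p (u - z) * tau p (u - a) +
        tauw p (w - y) * tau p (a - w) * tau p (u - w) * tau p (z - u) * tau p (a - z)) +
      4 * ((tau p (z - y) * tauw p (w - z) * tau p (a - w) * tau p (u - w) * tau p (u - a) +
        tau p (z - y) * tau p (w - z) * tau p (a - w) * tauw p (u - w) * tau p (u - a) +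
        tau p (z - y) * tau p (w - z) * tau p (a - w) * tau p (u - w) * tau p (u - a)) +
        (tau p (w - y) * tau p (z - w) * tau p (a - z) * tauw p (u - w) * tau p (u - a) +
        tau p (w - y) * tau p (z - w) * tau p (a - z) * tau p (u - w) * tau p (u - a)) +
        (tau p (w - y) * tau p (a - w) * tauw p (z - w) * tau p (u - z) * tau p (u - a) +
        tau p (w - y) * tau p (a - w) * tau p (z - w) * tauw p (u - z) * tau p (u - a) +
        tau p (w - y) * tau p (a - w) * tau p (z - w) * tau p (u - z) * tau p (u - a)) +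
        (tau p (w - y) * tau p (a - w) * tauw p (u - w) * tau p (z - u) * tau p (a - z) +
        tau p (w - y) * tau p (a - w) * tau p (u - w) * tau p (z - u) * tau p (a - z))) := by
  have hv : w2 (v - u) = 1 := w2_of_l1 h
  have b1 : w2 (v - y) ≤ 4 * (w2 (z - y) + w2 (w - z) + w2 (u - w) + 1) := by
    rw [← hv]
    refine le_trans (le_of_eq ?_) (w2_4 _ _ _ _)
    congr 1; abel
  have b2 : w2 (v - y) ≤ 4 * (w2 (w - y) + w2 (u - w) + 1) := by
    have := w2_4 (w - y) (u - w) (v - u) 0
    rw [w2_zero, add_zero, hv, add_zero] at this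
    refine le_trans (le_of_eq ?_) this
    congr 1; abel
  have b3 : w2 (v - y) ≤ 4 * (w2 (w - y) + w2 (z - w) + w2 (u - z) + 1) := by
    rw [← hv]
    refine le_trans (le_of_eq ?_) (w2_4 _ _ _ _)
    congr 1; abel
  unfold t4
  rw [mul_add, mul_add, mul_add]
  calc _ ≤ 4 * (w2 (z - y) + w2 (w - z) + w2 (u - w) + 1) *
          (tau p (z - y) * tau p (w - z) * tau p (a - w) * tau p (u - w) * tau p (u - a)) +
        4 * (w2 (w - y) + w2 (u - w) + 1) *
          (tau p (w - y) * tau p (z - w) * tau p (a - z) * tau p (u - w) * tau p (u - a)) +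
        4 * (w2 (w - y) + w2 (z - w) + w2 (u - z) + 1) *
          (tau p (w - y) * tau p (a - w) * tau p (z - w) * tau p (u - z) * tau p (u - a)) +
        4 * (w2 (w - y) + w2 (u - w) + 1) *
          (tau p (w - y) * tau p (a - w) * tau p (u - w) * tau p (z - u) * tau p (a - z)) := by
        gcongr
    _ = _ := by
        simp only [tw_eq]
        ring

private theorem sum_g (p : ℝ) (f : V d → ℝ≥0∞) (z u : V d) :
    ∑' v : V d, J p (v - u) * conv f (tau p) (z - v) =
      conv (J p) (conv f (tau p)) (z - u) := by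
  rw [← tsum_add_right _ u]
  unfold conv
  refine tsum_congr fun v => ?_
  rw [add_sub_cancel_right, show z - (v + u) = z - u - v by abel]

theorem Ew_le_split (p : ℝ) {F : Finset (V d) → V d → ℝ≥0∞} {f : V d → ℝ≥0∞}
    (hF : ∀ K v, F K v ≤ Sg f (K : Set (V d)) v) (A : Del (V d)) (y : V d) :
    Ew p w2 F A y ≤ sumA A.verts (fun a =>
      4 * XW1 p (conv (J p) (conv f (tau p))) y a + 4 * XW2 p (conv (J p) (conv f (tau p))) y a) := by
  classical
  refine (Ew_le_dia p w2 hF A y).trans (sumA_mono _ fun a => ?_)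
  unfold XW1 XW2 X1 X2 X3 X4
  simp only [← ENNReal.tsum_add, ← ENNReal.tsum_mul_left]
  refine ENNReal.tsum_le_tsum fun w => ENNReal.tsum_le_tsum fun z =>
    ENNReal.tsum_le_tsum fun u => ?_
  rw [← sum_g p f z u]
  simp only [← ENNReal.tsum_add, ← ENNReal.tsum_mul_left]
  refine ENNReal.tsum_le_tsum fun v => ?_
  by_cases h : l1 (v - u) = 1
  · have := coeff_le p y a u w z v h
    calc w2 (v - y) * t4 p y a u w z * J p (v - u) * conv f (tau p) (z - v)
        = w2 (v - y) * t4 p y a u w z * (J p (v - u) * conv f (tau p) (z - v)) := by ring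
      _ ≤ _ := mul_le_mul' this le_rfl
      _ = _ := by ring
  · have hJ : J p (v - u) = 0 := by
      unfold J; rw [if_neg h]
    rw [hJ]; simp

end Pool.Agent.PB.LE
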